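import Mathlib

set_option autoImplicit false

/-!
# Three vectors in a normed plane

There are no three vectors of norm at least `ρ` whose pairwise sums have norm less than `ρ`
(one of the sums may have norm `ρ`).
-/

open Filter Topology

namespace Pool.Agent.N269.LG

/-- `N` is a norm on the plane. -/
structure IsNm (N : (Fin 2 → ℝ) → ℝ) : Prop where
  z : ∀ x, N x = 0 → x = 0
  t : ∀ x y, N (x + y) ≤ N x + N y
  s : ∀ (r : ℝ) (x : Fin 2 → ℝ), N (r • x) = |r| * N x

variable {N : (Fin 2 → ℝ) → ℝ}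

theorem IsNm.zero (h : IsNm N) : N 0 = 0 := by
  have := h.s 0 0
  simpa using this

theorem IsNm.neg (h : IsNm N) (x : Fin 2 → ℝ) : N (-x) = N x := by
  have := h.s (-1) x
  simpa using this

theorem IsNm.nonneg (h : IsNm N) (x : Fin 2 → ℝ) : 0 ≤ N x := by
  have h1 := h.t x (-x)
  rw [h.neg, add_neg_cancel, h.zero] at h1
  linarith

theorem IsNm.pos (h : IsNm N) {x : Fin 2 → ℝ} (hx : x ≠ 0) : 0 < N x :=
  lt_of_le_of_ne (h.nonneg x) (fun e => hx (h.z x e.symm))

/-- the hypotheses on three vectors -/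
structure TH (N : (Fin 2 → ℝ) → ℝ) (ρ : ℝ) (p q s : Fin 2 → ℝ) : Prop where
  hp : ρ ≤ N p
  hq : ρ ≤ N q
  hs : ρ ≤ N s
  pq : N (p + q) ≤ ρ
  ps : N (p + s) ≤ ρ
  qs : N (q + s) ≤ ρ
  a : N (p + q) < ρ ∨ N (p + s) < ρ
  b : N (p + q) < ρ ∨ N (q + s) < ρ
  c : N (p + s) < ρ ∨ N (q + s) < ρ

theorem TH.sw {ρ : ℝ} {p q s : Fin 2 → ℝ} (h : TH N ρ p q s) : TH N ρ q p s :=
  ⟨h.hq, h.hp, h.hs, by rw [add_comm]; exact h.pq, h.qs, h.ps,
   by rw [add_comm q p]; exact h.b, by rw [add_comm q p]; exact h.a, h.c.symm⟩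

theorem TH.sx {ρ : ℝ} {p q s : Fin 2 → ℝ} (h : TH N ρ p q s) : TH N ρ p s q :=
  ⟨h.hp, h.hs, h.hq, h.ps, h.pq, by rw [add_comm]; exact h.qs,
   h.a.symm, by rw [add_comm s q]; exact h.c, by rw [add_comm s q]; exact h.b⟩

theorem core1_aux (hN : IsNm N) {ρ l m : ℝ} (hρ : 0 < ρ) {x y w : Fin 2 → ℝ} (h : TH N ρ x y w)
    (hl : 0 ≤ l) (hlm : l ≤ m) (hy : y = l • x + m • w) : False := by
  have e : (1 + l + m) • w = (-l) • (x + y) + (1 + l) • (y + w) := by
    have : (1 + l + m) • w - ((-l) • (x + y) + (1 + l) • (y + w)) = l • x + m • w - y := by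
      module
    rw [← sub_eq_zero, this, hy, sub_self]
  have h1 : (1 + l + m) * N w ≤ l * N (x + y) + (1 + l) * N (y + w) := by
    have h2 := hN.t ((-l) • (x + y)) ((1 + l) • (y + w))
    rw [← e, hN.s, hN.s, hN.s, abs_neg, abs_of_nonneg hl, abs_of_nonneg (by linarith),
      abs_of_nonneg (by linarith)] at h2
    exact h2
  have hw := h.hs
  have e1 := h.pq
  have e2 := h.qs
  have h3 : (1 + l + m) * ρ ≤ (1 + l + m) * N w :=
    mul_le_mul_of_nonneg_left hw (by linarith)
  have h4 : l * N (x + y) ≤ l * ρ := mul_le_mul_of_nonneg_left e1 hl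
  have h5 : (1 + l) * N (y + w) ≤ (1 + l) * ρ := mul_le_mul_of_nonneg_left e2 (by linarith)
  have h6 : l * ρ ≤ m * ρ := mul_le_mul_of_nonneg_right hlm hρ.le
  rcases h.b with hb | hb
  · rcases eq_or_lt_of_le hl with hl0 | hl0
    · subst hl0
      have hm : 0 < m := by
        rcases eq_or_lt_of_le hlm with hm | hm
        · exfalso
          subst hm
          have : y = 0 := by rw [hy]; simp
          have h7 := h.hq
          rw [this, hN.zero] at h7
          linarith
        · exact hm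
      have := mul_pos hm hρ
      nlinarith
    · have : l * N (x + y) < l * ρ := mul_lt_mul_of_pos_left hb hl0
      nlinarith
  · have : (1 + l) * N (y + w) < (1 + l) * ρ := mul_lt_mul_of_pos_left hb (by linarith)
    nlinarith

theorem core1 (hN : IsNm N) {ρ l m : ℝ} (hρ : 0 < ρ) {x y w : Fin 2 → ℝ} (h : TH N ρ x y w)
    (hl : 0 ≤ l) (hm : 0 ≤ m) (hy : y = l • x + m • w) : False := by
  rcases le_total l m with hlm | hlm
  · exact core1_aux hN hρ h hl hlm hy
  · exact core1_aux hN hρ (h.sw.sx.sw) hm hlm (by rw [hy, add_comm])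

theorem core2 (hN : IsNm N) {ρ α β γ : ℝ} (hρ : 0 < ρ) {x y w : Fin 2 → ℝ} (h : TH N ρ x y w)
    (h1 : β ≤ α) (h2 : γ ≤ β) (h3 : 0 ≤ γ) (hα : 0 < α)
    (rel : α • x + β • y + γ • w = 0) : False := by
  have hβ0 : 0 ≤ β := by linarith
  have hβ : 0 < β := by
    rcases eq_or_lt_of_le hβ0 with e | e
    · exfalso
      have hγ : γ = 0 := by linarith
      rw [← e, hγ] at rel
      have h4 : α • x = 0 := by simpa using rel
      have h5 : x = 0 := by
        rcases smul_eq_zero.1 h4 with h6 | h6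
        · linarith
        · exact h6
      have h7 := h.hp
      rw [h5, hN.zero] at h7
      linarith
    · exact e
  have e : (α + β - γ) • x = (β - γ) • (x + w) + (-β) • (y + w) := by
    have : (α + β - γ) • x - ((β - γ) • (x + w) + (-β) • (y + w)) = α • x + β • y + γ • w := by
      module
    rw [← sub_eq_zero, this, rel]
  have h4 : (α + β - γ) * N x ≤ (β - γ) * N (x + w) + β * N (y + w) := by
    have h5 := hN.t ((β - γ) • (x + w)) ((-β) • (y + w))
    rw [← e, hN.s, hN.s, hN.s, abs_neg, abs_of_nonneg hβ0, abs_of_nonneg (by linarith),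
      abs_of_nonneg (by linarith)] at h5
    exact h5
  have h5 : (α + β - γ) * ρ ≤ (α + β - γ) * N x := mul_le_mul_of_nonneg_left h.hp (by linarith)
  have h6 : (β - γ) * N (x + w) ≤ (β - γ) * ρ := mul_le_mul_of_nonneg_left h.ps (by linarith)
  have h7 : β * N (y + w) ≤ β * ρ := mul_le_mul_of_nonneg_left h.qs hβ0
  have h8 : β * ρ ≤ α * ρ := mul_le_mul_of_nonneg_right h1 hρ.le
  rcases h.c with hc | hc
  · rcases eq_or_lt_of_le h2 with e2 | e2
    · -- γ = β
      rcases eq_or_lt_of_le h1 with e3 | e3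
      · subst e2
        subst e3
        have h9 : x + y = -w := by
          have h10 : γ • (x + y + w) = 0 := by
            rw [← rel]; module
          rcases smul_eq_zero.1 h10 with h11 | h11
          · linarith
          · exact eq_neg_of_add_eq_zero_left h11
        rcases h.b with hb | hb
        · rw [h9, hN.neg] at hb
          have := h.hs
          linarith
        · have : γ * N (y + w) < γ * ρ := mul_lt_mul_of_pos_left hb hβ
          nlinarith
      · have : β * ρ < α * ρ := mul_lt_mul_of_pos_right e3 hρ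
        nlinarith
    · have : (β - γ) * N (x + w) < (β - γ) * ρ := mul_lt_mul_of_pos_left hc (by linarith)
      nlinarith
  · have : β * N (y + w) < β * ρ := mul_lt_mul_of_pos_left hc hβ
    nlinarith

theorem nonneg_case (hN : IsNm N) {ρ α β γ : ℝ} (hρ : 0 < ρ) {x y w : Fin 2 → ℝ}
    (h : TH N ρ x y w) (hα : 0 ≤ α) (hβ : 0 ≤ β) (hγ : 0 ≤ γ) (hne : ¬ (α = 0 ∧ β = 0 ∧ γ = 0))
    (rel : α • x + β • y + γ • w = 0) : False := by
  have pos : ∀ a b c : ℝ, b ≤ a → c ≤ b → 0 ≤ c → ¬ (a = 0 ∧ b = 0 ∧ c = 0) → 0 < a := by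
    intro a b c h1 h2 h3 h4
    by_contra h5
    apply h4
    refine ⟨?_, ?_, ?_⟩ <;> linarith
  rcases le_total α β with h1 | h1 <;> rcases le_total β γ with h2 | h2 <;>
    rcases le_total α γ with h3 | h3
  · -- α ≤ β ≤ γ
    exact core2 hN hρ (h.sw.sx.sw) h2 h1 hα (pos _ _ _ h2 h1 hα (by tauto))
      (by rw [← rel]; abel)
  · exact core2 hN hρ (h.sw.sx.sw) h2 h1 hα (pos _ _ _ h2 h1 hα (by tauto))
      (by rw [← rel]; abel)
  · -- α ≤ β, γ ≤ β, α ≤ γ : β ≥ γ ≥ α
    exact core2 hN hρ (h.sw.sx) h2 h3 hα (pos _ _ _ h2 h3 hα (by tauto))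
      (by rw [← rel]; abel)
  · -- β ≥ α ≥ γ
    exact core2 hN hρ (h.sw) h1 h3 hγ (pos _ _ _ h1 h3 hγ (by tauto))
      (by rw [← rel]; abel)
  · -- β ≤ α, β ≤ γ, α ≤ γ : γ ≥ α ≥ β
    exact core2 hN hρ (h.sx.sw) h3 h1 hβ (pos _ _ _ h3 h1 hβ (by tauto))
      (by rw [← rel]; abel)
  · -- α ≥ γ ≥ β
    exact core2 hN hρ (h.sx) h3 h2 hβ (pos _ _ _ h3 h2 hβ (by tauto))
      (by rw [← rel]; abel)
  · exact core2 hN hρ h h1 h2 hγ (pos _ _ _ h1 h2 hγ (by tauto)) rel
  · exact core2 hN hρ h h1 h2 hγ (pos _ _ _ h1 h2 hγ (by tauto)) rel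

theorem neg_case (hN : IsNm N) {ρ α β γ : ℝ} (hρ : 0 < ρ) {x y w : Fin 2 → ℝ}
    (h : TH N ρ x y w) (hα : 0 ≤ α) (hβ : β < 0) (hγ : 0 ≤ γ)
    (rel : α • x + β • y + γ • w = 0) : False := by
  refine core1 hN hρ h (l := α / (-β)) (m := γ / (-β)) (div_nonneg hα (by linarith))
    (div_nonneg hγ (by linarith)) ?_
  have hb : (-β) ≠ 0 := by linarith
  have h1 : (-β) • y = α • x + γ • w := by
    have : (-β) • y - (α • x + γ • w) = -(α • x + β • y + γ • w) := by module
    rw [← sub_eq_zero, this, rel, neg_zero]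
  have h2 : y = (-β)⁻¹ • ((-β) • y) := by rw [smul_smul, inv_mul_cancel₀ hb, one_smul]
  rw [h2, h1, smul_add, smul_smul, smul_smul]
  congr 2 <;> ring

theorem rel_case (hN : IsNm N) {ρ α β γ : ℝ} (hρ : 0 < ρ) {x y w : Fin 2 → ℝ}
    (h : TH N ρ x y w) (hne : ¬ (α = 0 ∧ β = 0 ∧ γ = 0))
    (rel : α • x + β • y + γ • w = 0) : False := by
  have rel' : (-α) • x + (-β) • y + (-γ) • w = 0 := by
    have : (-α) • x + (-β) • y + (-γ) • w = -(α • x + β • y + γ • w) := by module
    rw [this, rel, neg_zero]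
  have hne' : ¬ (-α = 0 ∧ -β = 0 ∧ -γ = 0) := by
    intro h1
    apply hne
    refine ⟨?_, ?_, ?_⟩ <;> linarith [h1.1, h1.2.1, h1.2.2]
  rcases lt_or_ge α 0 with a | a <;> rcases lt_or_ge β 0 with b | b <;>
    rcases lt_or_ge γ 0 with c | c
  · exact nonneg_case hN hρ h (by linarith) (by linarith) (by linarith) hne' rel'
  · -- α<0, β<0, γ≥0
    rcases eq_or_lt_of_le c with e | e
    · exact nonneg_case hN hρ h (α := -α) (β := -β) (γ := -γ) (by linarith) (by linarith)
        (by linarith) hne' rel'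
    · exact neg_case hN hρ h.sx (α := -α) (β := -γ) (γ := -β) (by linarith) (by linarith)
        (by linarith) (by rw [← rel']; abel)
  · -- α<0, β≥0, γ<0
    rcases eq_or_lt_of_le b with e | e
    · exact nonneg_case hN hρ h (α := -α) (β := -β) (γ := -γ) (by linarith) (by linarith)
        (by linarith) hne' rel'
    · exact neg_case hN hρ h (α := -α) (β := -β) (γ := -γ) (by linarith) (by linarith)
        (by linarith) rel'
  · -- α<0, β≥0, γ≥0
    exact neg_case hN hρ h.sw (α := β) (β := α) (γ := γ) b a c (by rw [← rel]; abel)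
  · -- α≥0, β<0, γ<0
    rcases eq_or_lt_of_le a with e | e
    · exact nonneg_case hN hρ h (α := -α) (β := -β) (γ := -γ) (by linarith) (by linarith)
        (by linarith) hne' rel'
    · exact neg_case hN hρ h.sw (α := -β) (β := -α) (γ := -γ) (by linarith) (by linarith)
        (by linarith) (by rw [← rel']; abel)
  · exact neg_case hN hρ h a b c rel
  · exact neg_case hN hρ h.sx (α := α) (β := γ) (γ := β) a c b (by rw [← rel]; abel)
  · exact nonneg_case hN hρ h a b c hne rel

/-- **Three vectors.** -/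
theorem three (hN : IsNm N) {ρ : ℝ} (hρ : 0 < ρ) {p q s : Fin 2 → ℝ} (h : TH N ρ p q s) :
    False := by
  by_cases hz : (q 0 * s 1 - q 1 * s 0 = 0 ∧ s 0 * p 1 - s 1 * p 0 = 0 ∧
      p 0 * q 1 - p 1 * q 0 = 0)
  · have hp0 : p ≠ 0 := by
      intro e
      have := h.hp
      rw [e, hN.zero] at this
      linarith
    have h1 : p 0 ≠ 0 ∨ p 1 ≠ 0 := by
      by_contra h2
      push Not at h2
      apply hp0
      ext i
      fin_cases i
      · exact h2.1
      · exact h2.2
    rcases h1 with h1 | h1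
    · refine rel_case hN hρ h (α := q 0 / p 0) (β := -1) (γ := 0) (by simp) ?_
      ext i
      fin_cases i
      · simp; field_simp; ring
      · simp; field_simp; linarith [hz.2.2]
    · refine rel_case hN hρ h (α := q 1 / p 1) (β := -1) (γ := 0) (by simp) ?_
      ext i
      fin_cases i
      · simp; field_simp; linarith [hz.2.2]
      · simp; field_simp; ring
  · refine rel_case hN hρ h hz ?_
    ext i
    fin_cases i
    · simp; ring
    · simp; ring

end Pool.Agent.N269.LG
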