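import Pool.Agent.N269.LG.Window

set_option autoImplicit false

/-!
# The sequence of the best approximations
-/

open Filter Topology

namespace Pool.Agent.N269.LG

variable {N : (Fin 2 → ℝ) → ℝ} {θ : Fin 2 → ℝ}

theorem IsNm.upper (hN : IsNm N) : ∃ C : ℝ, 0 < C ∧ ∀ x, N x ≤ C * ‖x‖ := by
  refine ⟨N (Pi.single 0 1) + N (Pi.single 1 1) + 1, ?_, ?_⟩
  · have := hN.nonneg (Pi.single 0 1)
    have := hN.nonneg (Pi.single 1 1)
    linarith
  · intro x
    have e : x = x 0 • (Pi.single 0 1 : Fin 2 → ℝ) + x 1 • (Pi.single 1 1 : Fin 2 → ℝ) := by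
      ext i
      fin_cases i <;> simp
    have h1 := hN.t (x 0 • (Pi.single 0 1 : Fin 2 → ℝ)) (x 1 • (Pi.single 1 1 : Fin 2 → ℝ))
    rw [← e, hN.s, hN.s] at h1
    have h2 : |x 0| ≤ ‖x‖ := norm_le_pi_norm x 0
    have h3 : |x 1| ≤ ‖x‖ := norm_le_pi_norm x 1
    have h4 := hN.nonneg (Pi.single 0 1)
    have h5 := hN.nonneg (Pi.single 1 1)
    have h6 := mul_le_mul_of_nonneg_right h2 h4
    have h7 := mul_le_mul_of_nonneg_right h3 h5
    have h8 := norm_nonneg x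
    nlinarith

theorem IsNm.cont (hN : IsNm N) : Continuous N := by
  obtain ⟨C, hC, h⟩ := hN.upper
  have : LipschitzWith ⟨C, hC.le⟩ N := by
    apply LipschitzWith.of_dist_le_mul
    intro x y
    rw [Real.dist_eq, dist_eq_norm]
    have h1 := hN.t (x - y) y
    have h2 := hN.t (y - x) x
    rw [sub_add_cancel] at h1 h2
    have h3 : N (y - x) = N (x - y) := by rw [← hN.neg, neg_sub]
    have h4 := h (x - y)
    rw [abs_le]
    constructor
    · show -(C * ‖x - y‖) ≤ _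
      linarith
    · show _ ≤ C * ‖x - y‖
      linarith
  exact this.continuous

theorem IsNm.lower (hN : IsNm N) : ∃ c : ℝ, 0 < c ∧ ∀ x, c * ‖x‖ ≤ N x := by
  have hc : IsCompact (Metric.sphere (0 : Fin 2 → ℝ) 1) := isCompact_sphere _ _
  have hne : (Metric.sphere (0 : Fin 2 → ℝ) 1).Nonempty := NormedSpace.sphere_nonempty.2 zero_le_one
  obtain ⟨x0, hx0, hmin⟩ := hc.exists_isMinOn hne hN.cont.continuousOn
  have hx0' : ‖x0‖ = 1 := by simpa using hx0
  have hx1 : x0 ≠ 0 := by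
    intro e
    rw [e, norm_zero] at hx0'
    norm_num at hx0'
  refine ⟨N x0, hN.pos hx1, ?_⟩
  intro x
  rcases eq_or_ne x 0 with e | e
  · rw [e, norm_zero, mul_zero, hN.zero]
  · have hx : 0 < ‖x‖ := norm_pos_iff.2 e
    have h1 : ‖x‖⁻¹ • x ∈ Metric.sphere (0 : Fin 2 → ℝ) 1 := by
      simp [norm_smul, hx.ne']
    have h2 := hmin h1
    have h3 : N x0 ≤ N (‖x‖⁻¹ • x) := h2
    rw [hN.s, abs_of_pos (inv_pos.2 hx)] at h3
    calc N x0 * ‖x‖ ≤ (‖x‖⁻¹ * N x) * ‖x‖ := mul_le_mul_of_nonneg_right h3 hx.le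
      _ = N x := by field_simp

/-- the distance of `k θ` to the integer points -/
noncomputable def dd (N : (Fin 2 → ℝ) → ℝ) (θ : Fin 2 → ℝ) (k : ℕ) : ℝ :=
  ⨅ a : Fin 2 → ℤ, N (fun i => (k : ℝ) * θ i - ((a i : ℤ) : ℝ))

/-- `k` is the first coordinate of a best approximation -/
def Rec (N : (Fin 2 → ℝ) → ℝ) (θ : Fin 2 → ℝ) : ℕ → Prop :=
  fun k => 0 < k ∧ ∀ j : ℕ, 0 < j → j < k → dd N θ k < dd N θ j

theorem exists_min (hN : IsNm N) (k : ℕ) : ∃ a : Fin 2 → ℤ,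
    dd N θ k = N (fun i => (k : ℝ) * θ i - ((a i : ℤ) : ℝ)) := by
  obtain ⟨c, hc, hlow⟩ := hN.lower
  have ht : Tendsto (fun a : Fin 2 → ℤ => N (fun i => (k : ℝ) * θ i - ((a i : ℤ) : ℝ)))
      cofinite atTop := by
    rw [tendsto_atTop]
    intro b
    rw [eventually_cofinite]
    apply (Set.finite_Icc (fun i => ⌊(k : ℝ) * θ i - b / c⌋ : Fin 2 → ℤ)
      (fun i => ⌈(k : ℝ) * θ i + b / c⌉ : Fin 2 → ℤ)).subset
    intro a ha
    simp only [Set.mem_ofPred_eq, not_le] at ha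
    have h1 := hlow (fun i => (k : ℝ) * θ i - ((a i : ℤ) : ℝ))
    have h2 : ‖(fun i => (k : ℝ) * θ i - ((a i : ℤ) : ℝ) : Fin 2 → ℝ)‖ < b / c := by
      rw [lt_div_iff₀ hc]
      linarith
    have h3 : ∀ i, |(k : ℝ) * θ i - ((a i : ℤ) : ℝ)| < b / c := fun i =>
      lt_of_le_of_lt (norm_le_pi_norm (fun i => (k : ℝ) * θ i - ((a i : ℤ) : ℝ) : Fin 2 → ℝ) i) h2
    constructor
    · intro i
      have h4 := (abs_lt.1 (h3 i)).2
      have h5 : (⌊(k : ℝ) * θ i - b / c⌋ : ℝ) ≤ (a i : ℝ) := by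
        have := Int.floor_le ((k : ℝ) * θ i - b / c)
        linarith
      exact_mod_cast h5
    · intro i
      have h4 := (abs_lt.1 (h3 i)).1
      have h5 : (a i : ℝ) ≤ (⌈(k : ℝ) * θ i + b / c⌉ : ℝ) := by
        have := Int.le_ceil ((k : ℝ) * θ i + b / c)
        linarith
      exact_mod_cast h5
  obtain ⟨a, ha⟩ := ht.exists_forall_le
  refine ⟨a, le_antisymm (ciInf_le ⟨0, ?_⟩ a) (le_ciInf ha)⟩
  rintro _ ⟨b, rfl⟩
  exact hN.nonneg _

theorem dd_le (hN : IsNm N) (k : ℕ) (a : Fin 2 → ℤ) :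
    dd N θ k ≤ N (fun i => (k : ℝ) * θ i - ((a i : ℤ) : ℝ)) := by
  refine ciInf_le ⟨0, ?_⟩ a
  rintro _ ⟨b, rfl⟩
  exact hN.nonneg _

theorem dd_pos (hN : IsNm N)
    (hθ : ∀ q : ℤ, q ≠ 0 → ¬ ∀ i : Fin 2, ∃ a : ℤ, (q : ℝ) * θ i = (a : ℝ)) {k : ℕ} (hk : 0 < k) :
    0 < dd N θ k := by
  obtain ⟨a, ha⟩ := exists_min (θ := θ) hN k
  rw [ha]
  apply hN.pos
  intro e
  apply hθ (k : ℤ) (by exact_mod_cast hk.ne')
  intro i
  refine ⟨a i, ?_⟩
  have := congrFun e i
  simp only [Pi.zero_apply] at this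
  push_cast
  linarith

theorem dd_small (hN : IsNm N) {ε : ℝ} (hε : 0 < ε) : ∃ k : ℕ, 0 < k ∧ dd N θ k < ε := by
  obtain ⟨C, hC, hup⟩ := hN.upper
  have hK : IsCompact (Set.Icc (0 : Fin 2 → ℝ) 1) := isCompact_Icc
  have hx : ∀ n : ℕ, (fun i => Int.fract ((n : ℝ) * θ i) : Fin 2 → ℝ) ∈
      Set.Icc (0 : Fin 2 → ℝ) 1 := fun n =>
    ⟨fun i => Int.fract_nonneg _, fun i => (Int.fract_lt_one _).le⟩
  obtain ⟨y, _, φ, hφ, hy⟩ := hK.tendsto_subseq hx
  have hcau := hy.cauchySeq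
  obtain ⟨n0, hn0⟩ := Metric.cauchySeq_iff'.1 hcau (ε / C) (div_pos hε hC)
  have h1 := hn0 (n0 + 1) (by omega)
  have h2 : φ n0 < φ (n0 + 1) := hφ (by omega)
  refine ⟨φ (n0 + 1) - φ n0, by omega, ?_⟩
  refine lt_of_le_of_lt (dd_le hN _ (fun i => ⌊(φ (n0 + 1) : ℝ) * θ i⌋ - ⌊(φ n0 : ℝ) * θ i⌋)) ?_
  have e : (fun i => ((φ (n0 + 1) - φ n0 : ℕ) : ℝ) * θ i -
      ((⌊(φ (n0 + 1) : ℝ) * θ i⌋ - ⌊(φ n0 : ℝ) * θ i⌋ : ℤ) : ℝ) : Fin 2 → ℝ) =
      (fun i => Int.fract ((φ (n0 + 1) : ℝ) * θ i)) - (fun i => Int.fract ((φ n0 : ℝ) * θ i)) := by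
    ext i
    simp only [Pi.sub_apply, Int.fract]
    rw [Nat.cast_sub h2.le]
    push_cast
    ring
  rw [e]
  refine lt_of_le_of_lt (hup _) ?_
  rw [dist_eq_norm] at h1
  have h3 := mul_lt_mul_of_pos_left h1 hC
  rw [mul_div_cancel₀ _ hC.ne'] at h3
  exact h3

theorem rec_inf (hN : IsNm N)
    (hθ : ∀ q : ℤ, q ≠ 0 → ¬ ∀ i : Fin 2, ∃ a : ℤ, (q : ℝ) * θ i = (a : ℝ)) :
    (setOf (Rec N θ)).Infinite := by
  classical
  rw [Set.infinite_iff_exists_gt]
  intro n
  have hex : ∃ k : ℕ, 0 < k ∧ ∀ j : ℕ, 0 < j → j ≤ n → dd N θ k < dd N θ j := by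
    have hεx : ∃ ε : ℝ, 0 < ε ∧ ∀ j : ℕ, 0 < j → j ≤ n → ε ≤ dd N θ j := by
      induction n with
      | zero => exact ⟨1, one_pos, fun j h1 h2 => by omega⟩
      | succ n ih =>
        obtain ⟨ε, h1, h2⟩ := ih
        refine ⟨min ε (dd N θ (n + 1)), lt_min h1 (dd_pos hN hθ (by omega)), ?_⟩
        intro j hj hj2
        rcases Nat.lt_or_ge n j with h3 | h3
        · have : j = n + 1 := by omega
          rw [this]
          exact min_le_right _ _
        · exact (min_le_left _ _).trans (h2 j hj h3)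
    obtain ⟨ε, h1, h2⟩ := hεx
    obtain ⟨k, hk, hk2⟩ := dd_small (θ := θ) hN h1
    exact ⟨k, hk, fun j h3 h4 => hk2.trans_le (h2 j h3 h4)⟩
  have hf := Nat.find_spec hex
  set k := Nat.find hex with hk
  have hkn : n < k := by
    by_contra h
    push Not at h
    exact lt_irrefl _ (hf.2 k hf.1 h)
  refine ⟨k, ⟨hf.1, ?_⟩, hkn⟩
  intro j hj hjk
  rcases Nat.lt_or_ge n j with h3 | h3
  · have h4 := Nat.find_min hex hjk
    push Not at h4
    obtain ⟨i, hi, hin, hi2⟩ := h4 hj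
    exact (hf.2 i hi hin).trans_le hi2
  · exact hf.2 j hj h3

theorem rec_prop (hinf : (setOf (Rec N θ)).Infinite) (ν : ℕ) {j : ℕ} (hj : 0 < j)
    (hj2 : j < Nat.nth (Rec N θ) (ν + 1)) : dd N θ (Nat.nth (Rec N θ) ν) ≤ dd N θ j := by
  classical
  by_contra hc
  push Not at hc
  have hex : ∃ j : ℕ, 0 < j ∧ dd N θ j < dd N θ (Nat.nth (Rec N θ) ν) := ⟨j, hj, hc⟩
  have hf := Nat.find_spec hex
  have hmin := fun i => @Nat.find_min _ _ hex i
  have hle : Nat.find hex ≤ j := Nat.find_min' hex ⟨hj, hc⟩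
  set k := Nat.find hex with hk
  have hrec : Rec N θ k := by
    refine ⟨hf.1, ?_⟩
    intro i hi hik
    have h4 := hmin i hik
    push Not at h4
    exact hf.2.trans_le (h4 hi)
  obtain ⟨n, _, hn⟩ := Nat.exists_lt_card_nth_eq hrec
  have hsm := Nat.nth_strictMono hinf
  have hν := Nat.nth_mem_of_infinite hinf ν
  have h1 : ¬ (k < Nat.nth (Rec N θ) ν) := by
    intro h
    exact lt_asymm hf.2 (hν.2 k hf.1 h)
  have h2 : k ≠ Nat.nth (Rec N θ) ν := by
    intro h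
    rw [h] at hf
    exact lt_irrefl _ hf.2
  have h3 : Nat.nth (Rec N θ) ν < k := by omega
  rw [← hn] at h3 hle
  have h5 := hsm.lt_iff_lt.1 h3
  have h6 := hsm.lt_iff_lt.1 (lt_of_le_of_lt hle hj2)
  omega

theorem eventually_rec (hN : IsNm N)
    (hθ : ∀ q : ℤ, q ≠ 0 → ¬ ∀ i : Fin 2, ∃ a : ℤ, (q : ℝ) * θ i = (a : ℝ)) :
    ∀ᶠ ν in atTop, 6 * (Nat.nth (Rec N θ) (ν + 1)) + 2 * (Nat.nth (Rec N θ) ν) ≤
      3 * (Nat.nth (Rec N θ) (ν + 6)) := by
  have hinf := rec_inf hN hθ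
  have hsm := Nat.nth_strictMono hinf
  obtain ⟨c, hc, hlow⟩ := hN.lower
  obtain ⟨k0, hk0, hk1⟩ := dd_small (θ := θ) hN hc
  choose a ha using fun k => exists_min (N := N) (θ := θ) hN k
  rw [eventually_atTop]
  refine ⟨k0, fun ν hν => ?_⟩
  set M : ℕ → ℕ := Nat.nth (Rec N θ) with hM
  let z : ℕ → V := fun i => ((M (ν + i) : ℤ), a (M (ν + i)))
  have hz : ∀ i, N (rem θ (z i)) = dd N θ (M (ν + i)) := by
    intro i
    rw [ha]
    rfl
  have hrec : ∀ n, Rec N θ (M n) := fun n => Nat.nth_mem_of_infinite hinf n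
  have hwin : Win N θ z := by
    refine ⟨?_, ?_, ?_, ?_, ?_⟩
    · show (0 : ℤ) < (M (ν + 0) : ℤ)
      exact_mod_cast (hrec (ν + 0)).1
    · intro i _
      show (M (ν + i) : ℤ) < (M (ν + (i + 1)) : ℤ)
      exact_mod_cast hsm (by omega)
    · intro i _
      rw [hz, hz]
      exact (hrec (ν + (i + 1))).2 _ (hrec (ν + i)).1 (hsm (by omega))
    · intro i _
      rw [hz]
      exact dd_pos hN hθ (hrec _).1
    · intro i hi w hw hw2
      rw [hz]
      have hw3 : |w.1| < (M (ν + i + 1) : ℤ) := hw2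
      rcases eq_or_ne w.1 0 with h0 | h0
      · have h1 : w.2 ≠ 0 := by
          intro e
          exact hw (Prod.ext h0 e)
        have h2 : 1 ≤ ‖rem θ w‖ := by
          obtain ⟨t, ht⟩ : ∃ t, w.2 t ≠ 0 := by
            by_contra hcc
            push Not at hcc
            exact h1 (funext hcc)
          refine le_trans ?_ (norm_le_pi_norm (rem θ w) t)
          rw [Real.norm_eq_abs]
          unfold rem
          rw [h0, Int.cast_zero, zero_mul, zero_sub, abs_neg]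
          have : (1 : ℤ) ≤ |w.2 t| := Int.one_le_abs ht
          exact_mod_cast this
        have h3 := hlow (rem θ w)
        have h4 : dd N θ (M (ν + i)) ≤ dd N θ k0 := by
          apply rec_prop hinf _ hk0
          have h5 := hsm.id_le (ν + i + 1)
          simp only [id] at h5
          show k0 < M (ν + i + 1)
          omega
        nlinarith
      · have h1 : 0 < w.1.natAbs := Int.natAbs_pos.2 h0
        have h2 : w.1.natAbs < M (ν + i + 1) := by
          have : ((w.1.natAbs : ℕ) : ℤ) < (M (ν + i + 1) : ℤ) := by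
            rw [Int.natCast_natAbs]
            exact hw3
          exact_mod_cast this
        have h3 := rec_prop hinf (ν + i) h1 h2
        refine h3.trans ?_
        rcases lt_or_gt_of_ne h0 with h4 | h4
        · have h5 := dd_le (θ := θ) hN w.1.natAbs (fun i => -(w.2 i))
          have h6 : (fun i => ((w.1.natAbs : ℕ) : ℝ) * θ i - ((-(w.2 i) : ℤ) : ℝ)) =
              -(rem θ w) := by
            ext t
            have h7 : ((w.1.natAbs : ℕ) : ℝ) = -(w.1 : ℝ) := by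
              have h8 : ((w.1.natAbs : ℕ) : ℤ) = -w.1 := by omega
              have h9 := congrArg (fun t : ℤ => (t : ℝ)) h8
              simp only [Int.cast_natCast, Int.cast_neg] at h9
              exact h9
            simp only [rem, Pi.neg_apply]
            rw [h7]
            push_cast
            ring
          rw [h6, hN.neg] at h5
          exact h5
        · have h5 := dd_le (θ := θ) hN w.1.natAbs (fun i => w.2 i)
          have h6 : (fun i => ((w.1.natAbs : ℕ) : ℝ) * θ i - ((w.2 i : ℤ) : ℝ)) =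
              rem θ w := by
            ext t
            have h7 : ((w.1.natAbs : ℕ) : ℝ) = (w.1 : ℝ) := by
              have h8 : ((w.1.natAbs : ℕ) : ℤ) = w.1 := by omega
              have h9 := congrArg (fun t : ℤ => (t : ℝ)) h8
              simp only [Int.cast_natCast] at h9
              exact h9
            simp only [rem]
            rw [h7]
          rw [h6] at h5
          exact h5
  have h := hwin.main hN
  have h' : 6 * (M (ν + 1) : ℤ) + 2 * (M (ν + 0) : ℤ) ≤ 3 * (M (ν + 6) : ℤ) := h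
  rw [add_zero] at h'
  exact_mod_cast h'

theorem growth {M : ℕ → ℝ} (hpos : ∀ n, 0 < M n) (hmono : Monotone M)
    (h : ∀ᶠ n in atTop, 6 * M (n + 1) + 2 * M n ≤ 3 * M (n + 6)) {c : ℝ} (hc : 0 < c)
    (hc2 : 3 * c ^ 6 < 6 * c + 2) : ∀ᶠ n in atTop, c ^ n < M n := by
  obtain ⟨n0, hn0⟩ := eventually_atTop.1 h
  have hd : ∃ d : ℝ, c < d ∧ 1 < d ∧ 3 * d ^ 6 ≤ 6 * d + 2 := by
    rcases lt_or_ge c 1.2 with h1 | h1
    · exact ⟨1.2, h1, by norm_num, by norm_num⟩
    · have hcont : ContinuousAt (fun x : ℝ => 6 * x + 2 - 3 * x ^ 6) c := by fun_prop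
      have h2 : ∀ᶠ x in 𝓝 c, 0 < 6 * x + 2 - 3 * x ^ 6 :=
        hcont.eventually_const_lt (by linarith)
      have h3 : ∀ᶠ x in 𝓝[>] c, 0 < 6 * x + 2 - 3 * x ^ 6 := h2.filter_mono nhdsWithin_le_nhds
      obtain ⟨d, hd1, hd2⟩ := (h3.and self_mem_nhdsWithin).exists
      have hd3 : c < d := hd2
      exact ⟨d, hd3, by linarith, by linarith⟩
  obtain ⟨d, hcd, hd1, hd2⟩ := hd
  have hd0 : 0 < d := by linarith
  set κ : ℝ := M n0 / d ^ (n0 + 6) with hκ
  have hκ0 : 0 < κ := div_pos (hpos _) (pow_pos hd0 _)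
  have key : ∀ n, n0 ≤ n → κ * d ^ n ≤ M n := by
    intro n
    induction n using Nat.strong_induction_on with
    | _ n ih =>
      intro hn
      rcases Nat.lt_or_ge n (n0 + 6) with h1 | h1
      · calc κ * d ^ n ≤ κ * d ^ (n0 + 6) :=
            mul_le_mul_of_nonneg_left (pow_le_pow_right₀ hd1.le (by omega)) hκ0.le
          _ = M n0 := by rw [hκ]; field_simp
          _ ≤ M n := hmono hn
      · obtain ⟨m, rfl⟩ : ∃ m, n = m + 6 := ⟨n - 6, by omega⟩
        have h2 := ih m (by omega) (by omega)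
        have h3 := ih (m + 1) (by omega) (by omega)
        have h4 := hn0 m (by omega)
        have h5 : 0 < κ * d ^ m := mul_pos hκ0 (pow_pos hd0 _)
        have h6 : κ * d ^ (m + 6) = (κ * d ^ m) * d ^ 6 := by ring
        have h7 : κ * d ^ (m + 1) = (κ * d ^ m) * d := by ring
        have h8 : (κ * d ^ m) * (3 * d ^ 6) ≤ (κ * d ^ m) * (6 * d + 2) :=
          mul_le_mul_of_nonneg_left hd2 h5.le
        rw [h7] at h3
        rw [h6]
        nlinarith
  have hr : Tendsto (fun n : ℕ => (c / d) ^ n) atTop (𝓝 0) :=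
    tendsto_pow_atTop_nhds_zero_of_lt_one (div_nonneg hc.le hd0.le) ((div_lt_one hd0).2 hcd)
  have h9 : ∀ᶠ n : ℕ in atTop, (c / d) ^ n < κ := hr.eventually_lt_const hκ0
  filter_upwards [h9, eventually_ge_atTop n0] with n h10 h11
  refine lt_of_lt_of_le ?_ (key n h11)
  rw [div_pow, div_lt_iff₀ (pow_pos hd0 n)] at h10
  exact h10

end Pool.Agent.N269.LG
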