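import Pool.Agent.N269.LG.Window

set_option autoImplicit false

/-!
# Seven consecutive best approximations: the sharp inequality
-/

open Filter Topology

namespace Pool.Agent.N269.LG

variable {N : (Fin 2 → ℝ) → ℝ} {θ : Fin 2 → ℝ} {z : ℕ → V}

theorem Win.small1 (hN : IsNm N) (h : Win N θ z) (hc : (z 6).1 < 2 * (z 1).1 + (z 0).1)
    (hs : ∀ c : Fin 8, c.val ≠ 0 → ∃ m ≤ 6, cl (z m) = c) {t : V} (ht : t ≠ 0)
    (hr : N (rem θ t) < N (rem θ (z 0))) (hx : |t.1| < (z 6).1) (hcl : (cl t).val ≠ 0) :
    ∃ m ≤ 6, t = z m ∨ t = -z m := by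
  obtain ⟨m, hm, e⟩ := hs (cl t) hcl
  obtain ⟨w, hw⟩ := cl_eq e.symm
  have hx1 : (z 1).1 ≤ |t.1| := by
    by_contra hcc
    push Not at hcc
    have := h.P 0 (by omega) t ht hcc
    linarith
  have hm6 : (z m).1 ≤ (z 6).1 := by
    rcases Nat.lt_or_ge m 6 with h3 | h3
    · exact (h.lt 6 le_rfl m h3).le
    · have : m = 6 := by omega
      rw [this]
  have hm0 : (z 0).1 ≤ (z m).1 := by
    rcases Nat.eq_zero_or_pos m with h4 | h4
    · rw [h4]
    · exact (h.lt m (by omega) 0 h4).le
  have hp := h.pos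
  have h01 := h.mono 0 (by omega)
  norm_num at h01
  have hrm : N (rem θ (z m)) ≤ N (rem θ (z 0)) := by
    rcases Nat.eq_zero_or_pos m with h4 | h4
    · rw [h4]
    · exact (h.gt m hm 0 h4).le
  have hfst : t.1 - (z m).1 = w.1 + w.1 := by
    have := congrArg Prod.fst hw
    simpa using this
  refine ⟨m, hm, ?_⟩
  rcases le_or_gt 0 t.1 with hsgn | hsgn
  · left
    rw [abs_of_nonneg hsgn] at hx hx1
    by_contra hne
    have hw0 : w ≠ 0 := by
      intro e0
      rw [e0, add_zero] at hw
      exact hne (sub_eq_zero.1 hw)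
    have h1 : |w.1| < (z (0 + 1)).1 := by
      rw [abs_lt]; norm_num; constructor <;> omega
    have h2 := h.P 0 (by omega) w hw0 h1
    have h3 : N (rem θ t - rem θ (z m)) = 2 * N (rem θ w) := by
      rw [← rem_sub, hw, rem_add, hN.dbl]
    have h4 := hN.t (rem θ t) (-rem θ (z m))
    rw [hN.neg, ← sub_eq_add_neg] at h4
    linarith
  · right
    rw [abs_of_neg hsgn] at hx hx1
    by_contra hne
    have hw' : t + z m = (w + z m) + (w + z m) := by
      have : t = (w + w) + z m := by rw [← hw]; abel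
      rw [this]; abel
    have hw0 : w + z m ≠ 0 := by
      intro e0
      rw [e0, add_zero] at hw'
      exact hne (eq_neg_of_add_eq_zero_left hw')
    have h1 : |(w + z m).1| < (z (0 + 1)).1 := by
      rw [abs_lt]; simp only [Prod.fst_add]; norm_num; constructor <;> omega
    have h2 := h.P 0 (by omega) (w + z m) hw0 h1
    have h3 : N (rem θ t + rem θ (z m)) = 2 * N (rem θ (w + z m)) := by
      rw [← rem_add, hw', rem_add, hN.dbl]
    have h4 := hN.t (rem θ t) (rem θ (z m))
    linarith

theorem Win.small2 (hN : IsNm N) (h : Win N θ z) (hc : (z 6).1 < 2 * (z 1).1 + (z 0).1)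
    (hs : ∀ c : Fin 8, c.val ≠ 0 → ∃ m ≤ 6, cl (z m) = c) {t : V} (ht : t ≠ 0)
    (hr : N (rem θ t) < N (rem θ (z 0))) (hx : |t.1| < (z 6).1) :
    ∃ m ≤ 6, t = z m ∨ t = -z m ∨ t = z m + z m ∨ t = -(z m + z m) := by
  by_cases hcl : (cl t).val = 0
  · obtain ⟨w, hw⟩ := cl_zero hcl
    have hfst : t.1 = w.1 + w.1 := by
      have := congrArg Prod.fst hw
      simpa using this
    have hw0 : w ≠ 0 := by
      intro e0
      rw [e0, add_zero] at hw
      exact ht hw
    have h3 : N (rem θ t) = 2 * N (rem θ w) := by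
      rw [hw, rem_add, hN.dbl]
    have h4 := hN.nonneg (rem θ w)
    have hr2 : N (rem θ w) < N (rem θ (z 0)) := by linarith
    have hp := h.pos
    have h01 := h.mono 0 (by omega)
    norm_num at h01
    have hx2 : |w.1| < (z 6).1 := by
      rw [abs_lt] at hx ⊢
      constructor <;> omega
    by_cases hcl2 : (cl w).val = 0
    · exfalso
      obtain ⟨v, hv⟩ := cl_zero hcl2
      have hfst2 : w.1 = v.1 + v.1 := by
        have := congrArg Prod.fst hv
        simpa using this
      have hv0 : v ≠ 0 := by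
        intro e0
        rw [e0, add_zero] at hv
        exact hw0 hv
      have h1 : |v.1| < (z (0 + 1)).1 := by
        rw [abs_lt] at hx ⊢; norm_num; constructor <;> omega
      have h2 := h.P 0 (by omega) v hv0 h1
      have h5 : N (rem θ w) = 2 * N (rem θ v) := by
        rw [hv, rem_add, hN.dbl]
      have h6 := hN.nonneg (rem θ v)
      linarith
    · obtain ⟨m, hm, e⟩ := h.small1 hN hc hs hw0 hr2 hx2 hcl2
      refine ⟨m, hm, ?_⟩
      rcases e with e | e
      · right; right; left; rw [hw, e]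
      · right; right; right; rw [hw, e]; abel
  · obtain ⟨m, hm, e⟩ := h.small1 hN hc hs ht hr hx hcl
    exact ⟨m, hm, by tauto⟩

theorem Win.line2 (hN : IsNm N) (h : Win N θ z) (hc : (z 6).1 < 2 * (z 1).1 + (z 0).1)
    (hs : ∀ c : Fin 8, c.val ≠ 0 → ∃ m ≤ 6, cl (z m) = c) {i j k : ℕ} (hij : i < j) (hjk : j < k)
    (hk : k ≤ 6) {w : V} (hw : z i + z j + z k = w + w) :
    z k = z i + z j ∨ ∃ m, i < m ∧ m ≤ 6 ∧ ∃ u : V,
      (u = z m ∨ u = -z m ∨ u = z m + z m ∨ u = -(z m + z m)) ∧
      (z j + z k - z i = u + u ∨ z i + z k - z j = u + u ∨ z i + z j - z k = u + u) := by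
  have a1 := h.lt j (by omega) i hij
  have a2 := h.lt k hk j hjk
  have a3 := h.mpos i (by omega)
  have a6 : (z k).1 ≤ (z 6).1 := by
    rcases Nat.lt_or_ge k 6 with h3 | h3
    · exact (h.lt 6 le_rfl k h3).le
    · have : k = 6 := by omega
      rw [this]
  have h2 : (z i).1 + (z j).1 + (z k).1 = w.1 + w.1 := by
    have := congrArg Prod.fst hw
    simpa using this
  have ep : (w - z k) + (w - z j) = z i := by
    have : (w - z k) + (w - z j) = (w + w) - z j - z k := by abel
    rw [this, ← hw]; abel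
  have eq1 : (w - z k) + (w - z i) = z j := by
    have : (w - z k) + (w - z i) = (w + w) - z i - z k := by abel
    rw [this, ← hw]; abel
  have es : (w - z j) + (w - z i) = z k := by
    have : (w - z j) + (w - z i) = (w + w) - z i - z j := by abel
    rw [this, ← hw]; abel
  by_cases hp0 : w - z k = 0
  · left
    rw [hp0, zero_add] at ep eq1
    rw [ep, eq1] at es
    rw [← es]
  right
  have hri : N (rem θ (z i)) ≤ N (rem θ (z 0)) := by
    rcases Nat.eq_zero_or_pos i with h4 | h4
    · rw [h4]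
    · exact (h.gt i (by omega) 0 h4).le
  -- a small vector among the three
  have fin : ∀ t : V, t ≠ 0 → N (rem θ t) < N (rem θ (z i)) → |t.1| < (z 6).1 →
      ∃ m, i < m ∧ m ≤ 6 ∧ (t = z m ∨ t = -z m ∨ t = z m + z m ∨ t = -(z m + z m)) := by
    intro t ht hr hx
    obtain ⟨m, hm, e⟩ := h.small2 hN hc hs ht (by linarith) hx
    refine ⟨m, ?_, hm, e⟩
    by_contra hmi
    push Not at hmi
    have h5 : N (rem θ (z i)) ≤ N (rem θ (z m)) := by
      rcases Nat.lt_or_ge m i with h6 | h6
      · exact (h.gt i (by omega) m h6).le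
      · have : m = i := by omega
        rw [this]
    have h7 := hN.nonneg (rem θ (z m))
    rcases e with e | e | e | e
    · rw [e] at hr; linarith
    · rw [e, rem_neg, hN.neg] at hr; linarith
    · rw [e, rem_add, hN.dbl] at hr; linarith
    · rw [e, rem_neg, hN.neg, rem_add, hN.dbl] at hr; linarith
  have es' : z j + z k - z i = (w - z i) + (w - z i) := by
    have : (w - z i) + (w - z i) = (w + w) - z i - z i := by abel
    rw [this, ← hw]; abel
  have eq' : z i + z k - z j = (w - z j) + (w - z j) := by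
    have : (w - z j) + (w - z j) = (w + w) - z j - z j := by abel
    rw [this, ← hw]; abel
  have ep' : z i + z j - z k = (w - z k) + (w - z k) := by
    have : (w - z k) + (w - z k) = (w + w) - z k - z k := by abel
    rw [this, ← hw]; abel
  by_cases b1 : N (rem θ (w - z j)) < N (rem θ (z i))
  · obtain ⟨m, hm1, hm2, e⟩ := fin (w - z j) (by
      intro e0
      have := congrArg Prod.fst e0
      simp only [Prod.fst_sub, Prod.fst_zero] at this
      omega) b1 (by simp only [Prod.fst_sub]; rw [abs_lt]; constructor <;> omega)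
    exact ⟨m, hm1, hm2, _, e, Or.inr (Or.inl eq')⟩
  by_cases b2 : N (rem θ (w - z i)) < N (rem θ (z i))
  · obtain ⟨m, hm1, hm2, e⟩ := fin (w - z i) (by
      intro e0
      have := congrArg Prod.fst e0
      simp only [Prod.fst_sub, Prod.fst_zero] at this
      omega) b2 (by simp only [Prod.fst_sub]; rw [abs_lt]; constructor <;> omega)
    exact ⟨m, hm1, hm2, _, e, Or.inl es'⟩
  by_cases b3 : N (rem θ (w - z k)) < N (rem θ (z i))
  · obtain ⟨m, hm1, hm2, e⟩ := fin (w - z k) hp0 b3
      (by simp only [Prod.fst_sub]; rw [abs_lt]; constructor <;> omega)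
    exact ⟨m, hm1, hm2, _, e, Or.inr (Or.inr ep')⟩
  push Not at b1 b2 b3
  exfalso
  have c1 := h.gt j (by omega) i hij
  have c2 := h.gt k hk i (by omega)
  have d1 : N (rem θ (w - z k) + rem θ (w - z j)) = N (rem θ (z i)) := by
    rw [← rem_add, ep]
  have d2 : N (rem θ (w - z k) + rem θ (w - z i)) < N (rem θ (z i)) := by
    rw [← rem_add, eq1]; exact c1
  have d3 : N (rem θ (w - z j) + rem θ (w - z i)) < N (rem θ (z i)) := by
    rw [← rem_add, es]; exact c2
  exact three hN (h.rpos i (by omega)) (p := rem θ (w - z k)) (q := rem θ (w - z j))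
    (s := rem θ (w - z i)) ⟨b3, b1, b2, d1.le, d2.le, d3.le, Or.inr d2, Or.inr d3, Or.inl d2⟩

/-- the certificates -/
def ok2 (c0 c1 c2 c3 c4 c5 c6 : Fin 8) : Bool :=
    ((((c0.val ^^^ c1.val ^^^ c4.val) == 0) && ((c3.val ^^^ c4.val ^^^ c6.val) == 0)) ||
     (((c1.val ^^^ c2.val ^^^ c5.val) == 0) && ((c4.val ^^^ c5.val ^^^ c6.val) == 0)) ||
     (((c0.val ^^^ c1.val ^^^ c3.val) == 0) && ((c2.val ^^^ c3.val ^^^ c6.val) == 0)) ||
     (((c1.val ^^^ c3.val ^^^ c5.val) == 0) && ((c4.val ^^^ c5.val ^^^ c6.val) == 0)) ||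
     (((c1.val ^^^ c2.val ^^^ c3.val) == 0) && ((c3.val ^^^ c5.val ^^^ c6.val) == 0)) ||
     (((c0.val ^^^ c1.val ^^^ c2.val) == 0) && ((c2.val ^^^ c3.val ^^^ c5.val) == 0)) ||
     (((c1.val ^^^ c2.val ^^^ c3.val) == 0) && ((c3.val ^^^ c4.val ^^^ c5.val) == 0)) ||
     (((c0.val ^^^ c2.val ^^^ c3.val) == 0) && ((c3.val ^^^ c4.val ^^^ c5.val) == 0)) ||
     (((c0.val ^^^ c1.val ^^^ c3.val) == 0) && ((c3.val ^^^ c4.val ^^^ c6.val) == 0)) ||
     (((c0.val ^^^ c1.val ^^^ c5.val) == 0) && ((c4.val ^^^ c5.val ^^^ c6.val) == 0)) ||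
     (((c0.val ^^^ c1.val ^^^ c3.val) == 0) && ((c2.val ^^^ c3.val ^^^ c4.val) == 0)) ||
     (((c0.val ^^^ c1.val ^^^ c2.val) == 0) && ((c2.val ^^^ c3.val ^^^ c6.val) == 0)) ||
     (((c0.val ^^^ c1.val ^^^ c2.val) == 0) && ((c2.val ^^^ c3.val ^^^ c4.val) == 0)) ||
     (((c0.val ^^^ c2.val ^^^ c3.val) == 0) && ((c3.val ^^^ c4.val ^^^ c6.val) == 0)) ||
     (((c1.val ^^^ c2.val ^^^ c3.val) == 0) && ((c3.val ^^^ c4.val ^^^ c6.val) == 0)) ||
     (((c0.val ^^^ c1.val ^^^ c5.val) == 0) && ((c0.val ^^^ c2.val ^^^ c3.val) == 0) && ((c0.val ^^^ c4.val ^^^ c6.val) == 0) && ((c1.val ^^^ c2.val ^^^ c6.val) == 0) && ((c1.val ^^^ c3.val ^^^ c4.val) == 0) && ((c2.val ^^^ c4.val ^^^ c5.val) == 0) && ((c3.val ^^^ c5.val ^^^ c6.val) == 0)) ||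
     (((c0.val ^^^ c1.val ^^^ c6.val) == 0) && ((c0.val ^^^ c2.val ^^^ c3.val) == 0) && ((c0.val ^^^ c4.val ^^^ c5.val) == 0) && ((c1.val ^^^ c2.val ^^^ c5.val) == 0) && ((c1.val ^^^ c3.val ^^^ c4.val) == 0) && ((c2.val ^^^ c4.val ^^^ c6.val) == 0) && ((c3.val ^^^ c5.val ^^^ c6.val) == 0)))

/-- the check -/
def chk2 : Bool :=
  (List.finRange 8).all fun c0 => !gd [] c0 ||
  (List.finRange 8).all fun c1 => !gd [c0] c1 ||
  (List.finRange 8).all fun c2 => !gd [c0, c1] c2 ||
  (List.finRange 8).all fun c3 => !gd [c0, c1, c2] c3 ||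
  (List.finRange 8).all fun c4 => !gd [c0, c1, c2, c3] c4 ||
  (List.finRange 8).all fun c5 => !gd [c0, c1, c2, c3, c4] c5 ||
  (List.finRange 8).all fun c6 => !gd [c0, c1, c2, c3, c4, c5] c6 ||
    (ok2 c0 c1 c2 c3 c4 c5 c6 && (List.finRange 8).all fun d => (d.val == 0 || d == c0 || d == c1 || d == c2 || d == c3 || d == c4 || d == c5 || d == c6))

theorem chk2_true : chk2 = true := by decide +kernel

theorem comb2 :
    ∀ c0 : Fin 8, gd [] c0 = true →
    ∀ c1 : Fin 8, gd [c0] c1 = true →
    ∀ c2 : Fin 8, gd [c0, c1] c2 = true →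
    ∀ c3 : Fin 8, gd [c0, c1, c2] c3 = true →
    ∀ c4 : Fin 8, gd [c0, c1, c2, c3] c4 = true →
    ∀ c5 : Fin 8, gd [c0, c1, c2, c3, c4] c5 = true →
    ∀ c6 : Fin 8, gd [c0, c1, c2, c3, c4, c5] c6 = true →
    (ok2 c0 c1 c2 c3 c4 c5 c6 && (List.finRange 8).all fun d => (d.val == 0 || d == c0 || d == c1 || d == c2 || d == c3 || d == c4 || d == c5 || d == c6)) = true := by
  have h := chk2_true
  unfold chk2 at h
  intro c0 h0 c1 h1 c2 h2 c3 h3 c4 h4 c5 h5 c6 h6
  replace h := List.all_eq_true.1 h c0 (List.mem_finRange _)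
  rw [h0, Bool.not_true, Bool.false_or] at h
  replace h := List.all_eq_true.1 h c1 (List.mem_finRange _)
  rw [h1, Bool.not_true, Bool.false_or] at h
  replace h := List.all_eq_true.1 h c2 (List.mem_finRange _)
  rw [h2, Bool.not_true, Bool.false_or] at h
  replace h := List.all_eq_true.1 h c3 (List.mem_finRange _)
  rw [h3, Bool.not_true, Bool.false_or] at h
  replace h := List.all_eq_true.1 h c4 (List.mem_finRange _)
  rw [h4, Bool.not_true, Bool.false_or] at h
  replace h := List.all_eq_true.1 h c5 (List.mem_finRange _)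
  rw [h5, Bool.not_true, Bool.false_or] at h
  replace h := List.all_eq_true.1 h c6 (List.mem_finRange _)
  rw [h6, Bool.not_true, Bool.false_or] at h
  exact h


/-- the last step -/
theorem last_step {a b c d e f : V} (e1 : c + d - a = b + b) (e2 : d + e - b = c + c)
    (e3 : a + f - b = c + c) (e4 : e + f - c = d + d) : c = (a + b - c) + (a + b - c) := by
  have g : ∀ φ : V →+ ℤ, φ c = (φ a + φ b - φ c) + (φ a + φ b - φ c) := by
    intro φ
    have f1 := congrArg φ e1
    have f2 := congrArg φ e2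
    have f3 := congrArg φ e3
    have f4 := congrArg φ e4
    simp only [map_add, map_sub] at f1 f2 f3 f4
    omega
  apply Prod.ext
  · have := g (AddMonoidHom.fst ℤ (Fin 2 → ℤ))
    simpa using this
  · ext t
    have := g ((Pi.evalAddMonoidHom (fun _ : Fin 2 => ℤ) t).comp (AddMonoidHom.snd ℤ (Fin 2 → ℤ)))
    simpa using this

theorem Win.main2 (hN : IsNm N) (h : Win N θ z) :
    2 * (z 1).1 + (z 0).1 ≤ (z 6).1 := by
  by_contra hc
  push Not at hc
  have m0 := h.pos
  have m1 := h.mono 0 (by omega)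
  have m2 := h.mono 1 (by omega)
  have m3 := h.mono 2 (by omega)
  have m4 := h.mono 3 (by omega)
  have m5 := h.mono 4 (by omega)
  have m6 := h.mono 5 (by omega)
  norm_num at m1 m2 m3 m4 m5 m6
  have hd : ∀ j ≤ 6, ∀ i < j, cl (z j) ≠ cl (z i) := by
    intro j hj i hij e
    obtain ⟨w, hw⟩ := cl_eq e
    have h1 := h.par hN hij hj hw
    have h2 : (z j).1 ≤ (z 6).1 := by
      rcases Nat.lt_or_ge j 6 with h3 | h3
      · exact (h.lt 6 le_rfl j h3).le
      · have : j = 6 := by omega
        rw [this]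
    have h3 : (z 0).1 ≤ (z i).1 := by
      rcases Nat.eq_zero_or_pos i with h4 | h4
      · rw [h4]
      · exact (h.lt i (by omega) 0 h4).le
    have h4 : (z 1).1 ≤ (z (i + 1)).1 := by
      rcases Nat.eq_zero_or_pos i with h4 | h4
      · rw [h4]
      · exact (h.lt (i + 1) (by omega) 1 (by omega)).le
    omega
  have hz : ∀ j ≤ 6, (cl (z j)).val ≠ 0 := by
    intro j hj e
    obtain ⟨w, hw⟩ := cl_zero e
    exact h.prim hN hj hw
  have hl : ∀ i j k : ℕ, i < j → j < k → k ≤ 6 →
      (cl (z i)).val ^^^ (cl (z j)).val ^^^ (cl (z k)).val = 0 →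
      2 * (z (i + 1)).1 + (z i).1 ≤ (z j).1 + (z k).1 := by
    intro i j k hij hjk hk e
    obtain ⟨w, hw⟩ := cl_line e
    exact h.line hN hij hjk hk hw
  have hg : ∀ (l : List ℕ) (j : ℕ), j ≤ 6 → (∀ i ∈ l, i < j) →
      gd (l.map (fun i => cl (z i))) (cl (z j)) = true := by
    intro l j hj hlj
    unfold gd
    rw [Bool.and_eq_true]
    constructor
    · simpa using hz j hj
    · rw [List.all_eq_true]
      intro d hd'
      obtain ⟨i, hi, rfl⟩ := List.mem_map.1 hd'
      have h1 := hd j hj i (hlj i hi)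
      simp only [bne_iff_ne, ne_eq]
      intro e
      exact h1 (Fin.ext e.symm)
  have hk0 := comb2 (cl (z 0)) (hg [] 0 (by omega) (by simp)) (cl (z 1)) (hg [0] 1 (by omega) (by simp)) (cl (z 2)) (hg [0, 1] 2 (by omega) (by simp)) (cl (z 3)) (hg [0, 1, 2] 3 (by omega) (by simp)) (cl (z 4)) (hg [0, 1, 2, 3] 4 (by omega) (by simp)) (cl (z 5)) (hg [0, 1, 2, 3, 4] 5 (by omega) (by simp)) (cl (z 6)) (hg [0, 1, 2, 3, 4, 5] 6 (by omega) (by simp))
  rw [Bool.and_eq_true] at hk0
  obtain ⟨hk, hk1⟩ := hk0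
  have hs : ∀ c : Fin 8, c.val ≠ 0 → ∃ m ≤ 6, cl (z m) = c := by
    intro c hc0
    have h1 := List.all_eq_true.1 hk1 c (List.mem_finRange _)
    simp only [Bool.or_eq_true, beq_iff_eq, or_assoc] at h1
    rcases h1 with h1 | h1 | h1 | h1 | h1 | h1 | h1 | h1
    · exact absurd h1 hc0
    · exact ⟨0, by omega, h1.symm⟩
    · exact ⟨1, by omega, h1.symm⟩
    · exact ⟨2, by omega, h1.symm⟩
    · exact ⟨3, by omega, h1.symm⟩
    · exact ⟨4, by omega, h1.symm⟩
    · exact ⟨5, by omega, h1.symm⟩
    · exact ⟨6, by omega, h1.symm⟩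
  simp only [ok2, Bool.or_eq_true, Bool.and_eq_true, beq_iff_eq, or_assoc] at hk
  rcases hk with ⟨e1, e2⟩ | ⟨e1, e2⟩ | ⟨e1, e2⟩ | ⟨e1, e2⟩ | ⟨e1, e2⟩ | ⟨e1, e2⟩ | ⟨e1, e2⟩ | ⟨e1, e2⟩ | ⟨e1, e2⟩ | ⟨e1, e2⟩ | ⟨e1, e2⟩ | ⟨e1, e2⟩ | ⟨e1, e2⟩ | ⟨e1, e2⟩ | ⟨e1, e2⟩ | ⟨⟨⟨⟨⟨⟨e1, e2⟩, e3⟩, e4⟩, e5⟩, e6⟩, e7⟩ | ⟨⟨⟨⟨⟨⟨e1, e2⟩, e3⟩, e4⟩, e5⟩, e6⟩, e7⟩
  · have f1 := hl 0 1 4 (by omega) (by omega) (by omega) e1
    have f2 := hl 3 4 6 (by omega) (by omega) (by omega) e2
    norm_num at f1 f2
    omega
  · have f1 := hl 1 2 5 (by omega) (by omega) (by omega) e1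
    have f2 := hl 4 5 6 (by omega) (by omega) (by omega) e2
    norm_num at f1 f2
    omega
  · have f1 := hl 0 1 3 (by omega) (by omega) (by omega) e1
    have f2 := hl 2 3 6 (by omega) (by omega) (by omega) e2
    norm_num at f1 f2
    omega
  · have f1 := hl 1 3 5 (by omega) (by omega) (by omega) e1
    have f2 := hl 4 5 6 (by omega) (by omega) (by omega) e2
    norm_num at f1 f2
    omega
  · have f1 := hl 1 2 3 (by omega) (by omega) (by omega) e1
    have f2 := hl 3 5 6 (by omega) (by omega) (by omega) e2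
    norm_num at f1 f2
    omega
  · have f1 := hl 0 1 2 (by omega) (by omega) (by omega) e1
    have f2 := hl 2 3 5 (by omega) (by omega) (by omega) e2
    norm_num at f1 f2
    omega
  · have f1 := hl 1 2 3 (by omega) (by omega) (by omega) e1
    have f2 := hl 3 4 5 (by omega) (by omega) (by omega) e2
    norm_num at f1 f2
    omega
  · have f1 := hl 0 2 3 (by omega) (by omega) (by omega) e1
    have f2 := hl 3 4 5 (by omega) (by omega) (by omega) e2
    norm_num at f1 f2
    omega
  · have f1 := hl 0 1 3 (by omega) (by omega) (by omega) e1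
    have f2 := hl 3 4 6 (by omega) (by omega) (by omega) e2
    norm_num at f1 f2
    omega
  · have f1 := hl 0 1 5 (by omega) (by omega) (by omega) e1
    have f2 := hl 4 5 6 (by omega) (by omega) (by omega) e2
    norm_num at f1 f2
    omega
  · have f1 := hl 0 1 3 (by omega) (by omega) (by omega) e1
    have f2 := hl 2 3 4 (by omega) (by omega) (by omega) e2
    norm_num at f1 f2
    omega
  · have f1 := hl 0 1 2 (by omega) (by omega) (by omega) e1
    have f2 := hl 2 3 6 (by omega) (by omega) (by omega) e2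
    norm_num at f1 f2
    omega
  · have f1 := hl 0 1 2 (by omega) (by omega) (by omega) e1
    have f2 := hl 2 3 4 (by omega) (by omega) (by omega) e2
    norm_num at f1 f2
    omega
  · have f1 := hl 0 2 3 (by omega) (by omega) (by omega) e1
    have f2 := hl 3 4 6 (by omega) (by omega) (by omega) e2
    norm_num at f1 f2
    omega
  · have f1 := hl 1 2 3 (by omega) (by omega) (by omega) e1
    have f2 := hl 3 4 6 (by omega) (by omega) (by omega) e2
    norm_num at f1 f2
    omega
  · have f1 := hl 0 1 5 (by omega) (by omega) (by omega) e1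
    have f2 := hl 0 2 3 (by omega) (by omega) (by omega) e2
    have f3 := hl 0 4 6 (by omega) (by omega) (by omega) e3
    have f4 := hl 1 2 6 (by omega) (by omega) (by omega) e4
    have f5 := hl 1 3 4 (by omega) (by omega) (by omega) e5
    have f6 := hl 2 4 5 (by omega) (by omega) (by omega) e6
    have f7 := hl 3 5 6 (by omega) (by omega) (by omega) e7
    norm_num at f1 f2 f3 f4 f5 f6 f7
    have g023 : z 3 = z 0 + z 2 ∨ z 2 + z 3 - z 0 = z 1 + z 1 ∨ z 2 + z 3 - z 0 = z 2 + z 2 := by
      obtain ⟨w, hw⟩ := cl_line e2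
      rcases h.line2 hN hc hs (i := 0) (j := 2) (k := 3) (by omega) (by omega) (by omega) hw with q | ⟨m, hm1, hm2, u, hu, q⟩
      · have qf := congrArg Prod.fst q
        simp only [Prod.fst_add] at qf
        first | (exfalso; omega) | exact q | exact Or.inl q | exact Or.inr (Or.inl q) | exact Or.inr (Or.inr q) | exact Or.inr q
      · interval_cases m <;> rcases hu with rfl | rfl | rfl | rfl <;> rcases q with q | q | q <;>
          (have qf := congrArg Prod.fst q
           simp only [Prod.fst_add, Prod.fst_sub, Prod.fst_neg] at qf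
           first | (exfalso; omega) | exact q | exact Or.inl q | exact Or.inr (Or.inl q) | exact Or.inr (Or.inr q) | exact Or.inr q)
    have g01 : z 0 + z 5 - z 1 = z 1 + z 1 ∨ z 0 + z 5 - z 1 = z 2 + z 2 ∨ z 1 + z 5 - z 0 = z 3 + z 3 := by
      obtain ⟨w, hw⟩ := cl_line e1
      rcases h.line2 hN hc hs (i := 0) (j := 1) (k := 5) (by omega) (by omega) (by omega) hw with q | ⟨m, hm1, hm2, u, hu, q⟩
      · have qf := congrArg Prod.fst q
        simp only [Prod.fst_add] at qf
        first | (exfalso; omega) | exact q | exact Or.inl q | exact Or.inr (Or.inl q) | exact Or.inr (Or.inr q) | exact Or.inr q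
      · interval_cases m <;> rcases hu with rfl | rfl | rfl | rfl <;> rcases q with q | q | q <;>
          (have qf := congrArg Prod.fst q
           simp only [Prod.fst_add, Prod.fst_sub, Prod.fst_neg] at qf
           first | (exfalso; omega) | exact q | exact Or.inl q | exact Or.inr (Or.inl q) | exact Or.inr (Or.inr q) | exact Or.inr q)
    have g12 : z 1 + z 6 - z 2 = z 2 + z 2 ∨ z 2 + z 6 - z 1 = z 3 + z 3 := by
      obtain ⟨w, hw⟩ := cl_line e4
      rcases h.line2 hN hc hs (i := 1) (j := 2) (k := 6) (by omega) (by omega) (by omega) hw with q | ⟨m, hm1, hm2, u, hu, q⟩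
      · have qf := congrArg Prod.fst q
        simp only [Prod.fst_add] at qf
        first | (exfalso; omega) | exact q | exact Or.inl q | exact Or.inr (Or.inl q) | exact Or.inr (Or.inr q) | exact Or.inr q
      · interval_cases m <;> rcases hu with rfl | rfl | rfl | rfl <;> rcases q with q | q | q <;>
          (have qf := congrArg Prod.fst q
           simp only [Prod.fst_add, Prod.fst_sub, Prod.fst_neg] at qf
           first | (exfalso; omega) | exact q | exact Or.inl q | exact Or.inr (Or.inl q) | exact Or.inr (Or.inr q) | exact Or.inr q)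
    have g134 : z 3 + z 4 - z 1 = z 2 + z 2 := by
      obtain ⟨w, hw⟩ := cl_line e5
      rcases h.line2 hN hc hs (i := 1) (j := 3) (k := 4) (by omega) (by omega) (by omega) hw with q | ⟨m, hm1, hm2, u, hu, q⟩
      · have qf := congrArg Prod.fst q
        simp only [Prod.fst_add] at qf
        first | (exfalso; omega) | exact q | exact Or.inl q | exact Or.inr (Or.inl q) | exact Or.inr (Or.inr q) | exact Or.inr q
      · interval_cases m <;> rcases hu with rfl | rfl | rfl | rfl <;> rcases q with q | q | q <;>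
          (have qf := congrArg Prod.fst q
           simp only [Prod.fst_add, Prod.fst_sub, Prod.fst_neg] at qf
           first | (exfalso; omega) | exact q | exact Or.inl q | exact Or.inr (Or.inl q) | exact Or.inr (Or.inr q) | exact Or.inr q)
    have g24 : z 4 + z 5 - z 2 = z 3 + z 3 := by
      obtain ⟨w, hw⟩ := cl_line e6
      rcases h.line2 hN hc hs (i := 2) (j := 4) (k := 5) (by omega) (by omega) (by omega) hw with q | ⟨m, hm1, hm2, u, hu, q⟩
      · have qf := congrArg Prod.fst q
        simp only [Prod.fst_add] at qf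
        first | (exfalso; omega) | exact q | exact Or.inl q | exact Or.inr (Or.inl q) | exact Or.inr (Or.inr q) | exact Or.inr q
      · interval_cases m <;> rcases hu with rfl | rfl | rfl | rfl <;> rcases q with q | q | q <;>
          (have qf := congrArg Prod.fst q
           simp only [Prod.fst_add, Prod.fst_sub, Prod.fst_neg] at qf
           first | (exfalso; omega) | exact q | exact Or.inl q | exact Or.inr (Or.inl q) | exact Or.inr (Or.inr q) | exact Or.inr q)
    have q134 := congrArg Prod.fst g134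
    have q24 := congrArg Prod.fst g24
    simp only [Prod.fst_add, Prod.fst_sub] at q134 q24
    rcases g023 with q1 | q1 | q1 <;> rcases g01 with q2 | q2 | q2 <;> rcases g12 with q3 | q3 <;>
      (have k1 := congrArg Prod.fst q1
       have k2 := congrArg Prod.fst q2
       have k3 := congrArg Prod.fst q3
       simp only [Prod.fst_add, Prod.fst_sub] at k1 k2 k3
       first | omega | exact h.prim hN (by omega) (last_step q1 g134 q2 g24))
  · have f1 := hl 0 1 6 (by omega) (by omega) (by omega) e1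
    have f2 := hl 0 2 3 (by omega) (by omega) (by omega) e2
    have f3 := hl 0 4 5 (by omega) (by omega) (by omega) e3
    have f4 := hl 1 2 5 (by omega) (by omega) (by omega) e4
    have f5 := hl 1 3 4 (by omega) (by omega) (by omega) e5
    have f6 := hl 2 4 6 (by omega) (by omega) (by omega) e6
    have f7 := hl 3 5 6 (by omega) (by omega) (by omega) e7
    norm_num at f1 f2 f3 f4 f5 f6 f7
    have g023 : z 3 = z 0 + z 2 ∨ z 2 + z 3 - z 0 = z 1 + z 1 ∨ z 2 + z 3 - z 0 = z 2 + z 2 := by
      obtain ⟨w, hw⟩ := cl_line e2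
      rcases h.line2 hN hc hs (i := 0) (j := 2) (k := 3) (by omega) (by omega) (by omega) hw with q | ⟨m, hm1, hm2, u, hu, q⟩
      · have qf := congrArg Prod.fst q
        simp only [Prod.fst_add] at qf
        first | (exfalso; omega) | exact q | exact Or.inl q | exact Or.inr (Or.inl q) | exact Or.inr (Or.inr q) | exact Or.inr q
      · interval_cases m <;> rcases hu with rfl | rfl | rfl | rfl <;> rcases q with q | q | q <;>
          (have qf := congrArg Prod.fst q
           simp only [Prod.fst_add, Prod.fst_sub, Prod.fst_neg] at qf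
           first | (exfalso; omega) | exact q | exact Or.inl q | exact Or.inr (Or.inl q) | exact Or.inr (Or.inr q) | exact Or.inr q)
    have g01 : z 0 + z 6 - z 1 = z 1 + z 1 ∨ z 0 + z 6 - z 1 = z 2 + z 2 ∨ z 1 + z 6 - z 0 = z 3 + z 3 := by
      obtain ⟨w, hw⟩ := cl_line e1
      rcases h.line2 hN hc hs (i := 0) (j := 1) (k := 6) (by omega) (by omega) (by omega) hw with q | ⟨m, hm1, hm2, u, hu, q⟩
      · have qf := congrArg Prod.fst q
        simp only [Prod.fst_add] at qf
        first | (exfalso; omega) | exact q | exact Or.inl q | exact Or.inr (Or.inl q) | exact Or.inr (Or.inr q) | exact Or.inr q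
      · interval_cases m <;> rcases hu with rfl | rfl | rfl | rfl <;> rcases q with q | q | q <;>
          (have qf := congrArg Prod.fst q
           simp only [Prod.fst_add, Prod.fst_sub, Prod.fst_neg] at qf
           first | (exfalso; omega) | exact q | exact Or.inl q | exact Or.inr (Or.inl q) | exact Or.inr (Or.inr q) | exact Or.inr q)
    have g12 : z 1 + z 5 - z 2 = z 2 + z 2 ∨ z 2 + z 5 - z 1 = z 3 + z 3 := by
      obtain ⟨w, hw⟩ := cl_line e4
      rcases h.line2 hN hc hs (i := 1) (j := 2) (k := 5) (by omega) (by omega) (by omega) hw with q | ⟨m, hm1, hm2, u, hu, q⟩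
      · have qf := congrArg Prod.fst q
        simp only [Prod.fst_add] at qf
        first | (exfalso; omega) | exact q | exact Or.inl q | exact Or.inr (Or.inl q) | exact Or.inr (Or.inr q) | exact Or.inr q
      · interval_cases m <;> rcases hu with rfl | rfl | rfl | rfl <;> rcases q with q | q | q <;>
          (have qf := congrArg Prod.fst q
           simp only [Prod.fst_add, Prod.fst_sub, Prod.fst_neg] at qf
           first | (exfalso; omega) | exact q | exact Or.inl q | exact Or.inr (Or.inl q) | exact Or.inr (Or.inr q) | exact Or.inr q)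
    have g134 : z 3 + z 4 - z 1 = z 2 + z 2 := by
      obtain ⟨w, hw⟩ := cl_line e5
      rcases h.line2 hN hc hs (i := 1) (j := 3) (k := 4) (by omega) (by omega) (by omega) hw with q | ⟨m, hm1, hm2, u, hu, q⟩
      · have qf := congrArg Prod.fst q
        simp only [Prod.fst_add] at qf
        first | (exfalso; omega) | exact q | exact Or.inl q | exact Or.inr (Or.inl q) | exact Or.inr (Or.inr q) | exact Or.inr q
      · interval_cases m <;> rcases hu with rfl | rfl | rfl | rfl <;> rcases q with q | q | q <;>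
          (have qf := congrArg Prod.fst q
           simp only [Prod.fst_add, Prod.fst_sub, Prod.fst_neg] at qf
           first | (exfalso; omega) | exact q | exact Or.inl q | exact Or.inr (Or.inl q) | exact Or.inr (Or.inr q) | exact Or.inr q)
    have g24 : z 4 + z 6 - z 2 = z 3 + z 3 := by
      obtain ⟨w, hw⟩ := cl_line e6
      rcases h.line2 hN hc hs (i := 2) (j := 4) (k := 6) (by omega) (by omega) (by omega) hw with q | ⟨m, hm1, hm2, u, hu, q⟩
      · have qf := congrArg Prod.fst q
        simp only [Prod.fst_add] at qf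
        first | (exfalso; omega) | exact q | exact Or.inl q | exact Or.inr (Or.inl q) | exact Or.inr (Or.inr q) | exact Or.inr q
      · interval_cases m <;> rcases hu with rfl | rfl | rfl | rfl <;> rcases q with q | q | q <;>
          (have qf := congrArg Prod.fst q
           simp only [Prod.fst_add, Prod.fst_sub, Prod.fst_neg] at qf
           first | (exfalso; omega) | exact q | exact Or.inl q | exact Or.inr (Or.inl q) | exact Or.inr (Or.inr q) | exact Or.inr q)
    have q134 := congrArg Prod.fst g134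
    have q24 := congrArg Prod.fst g24
    simp only [Prod.fst_add, Prod.fst_sub] at q134 q24
    rcases g023 with q1 | q1 | q1 <;> rcases g01 with q2 | q2 | q2 <;> rcases g12 with q3 | q3 <;>
      (have k1 := congrArg Prod.fst q1
       have k2 := congrArg Prod.fst q2
       have k3 := congrArg Prod.fst q3
       simp only [Prod.fst_add, Prod.fst_sub] at k1 k2 k3
       first | omega | exact h.prim hN (by omega) (last_step q1 g134 q2 g24))

end Pool.Agent.N269.LG
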