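import Pool.Agent.N269.LG.Seq
import Pool.Agent.N269.LG.Window2

set_option autoImplicit false

/-!
# The sharp inequality for the sequence of the best approximations
-/

open Filter Topology

namespace Pool.Agent.N269.LG

variable {N : (Fin 2 → ℝ) → ℝ} {θ : Fin 2 → ℝ}

theorem eventually_rec2 (hN : IsNm N)
    (hθ : ∀ q : ℤ, q ≠ 0 → ¬ ∀ i : Fin 2, ∃ a : ℤ, (q : ℝ) * θ i = (a : ℝ)) :
    ∀ᶠ ν in atTop, 2 * (Nat.nth (Rec N θ) (ν + 1)) + (Nat.nth (Rec N θ) ν) ≤
      (Nat.nth (Rec N θ) (ν + 6)) := by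
  have hinf := rec_inf hN hθ
  have hsm := Nat.nth_strictMono hinf
  obtain ⟨c, hc, hlow⟩ := hN.lower
  obtain ⟨k0, hk0, hk1⟩ := dd_small (θ := θ) hN hc
  choose a ha using fun k => exists_min (N := N) (θ := θ) hN k
  rw [eventually_atTop]
  refine ⟨k0, fun ν hν => ?_⟩
  set M : ℕ → ℕ := Nat.nth (Rec N θ) with hM
  let z : ℕ → V := fun i => ((M (ν + i) : ℤ), a (M (ν + i)))
  have hz : ∀ i, N (rem θ (z i)) = dd N θ (M (ν + i)) := by
    intro i
    rw [ha]
    rfl
  have hrec : ∀ n, Rec N θ (M n) := fun n => Nat.nth_mem_of_infinite hinf n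
  have hwin : Win N θ z := by
    refine ⟨?_, ?_, ?_, ?_, ?_⟩
    · show (0 : ℤ) < (M (ν + 0) : ℤ)
      exact_mod_cast (hrec (ν + 0)).1
    · intro i _
      show (M (ν + i) : ℤ) < (M (ν + (i + 1)) : ℤ)
      exact_mod_cast hsm (by omega)
    · intro i _
      rw [hz, hz]
      exact (hrec (ν + (i + 1))).2 _ (hrec (ν + i)).1 (hsm (by omega))
    · intro i _
      rw [hz]
      exact dd_pos hN hθ (hrec _).1
    · intro i hi w hw hw2
      rw [hz]
      have hw3 : |w.1| < (M (ν + i + 1) : ℤ) := hw2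
      rcases eq_or_ne w.1 0 with h0 | h0
      · have h1 : w.2 ≠ 0 := by
          intro e
          exact hw (Prod.ext h0 e)
        have h2 : 1 ≤ ‖rem θ w‖ := by
          obtain ⟨t, ht⟩ : ∃ t, w.2 t ≠ 0 := by
            by_contra hcc
            push Not at hcc
            exact h1 (funext hcc)
          refine le_trans ?_ (norm_le_pi_norm (rem θ w) t)
          rw [Real.norm_eq_abs]
          unfold rem
          rw [h0, Int.cast_zero, zero_mul, zero_sub, abs_neg]
          have : (1 : ℤ) ≤ |w.2 t| := Int.one_le_abs ht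
          exact_mod_cast this
        have h3 := hlow (rem θ w)
        have h4 : dd N θ (M (ν + i)) ≤ dd N θ k0 := by
          apply rec_prop hinf _ hk0
          have h5 := hsm.id_le (ν + i + 1)
          simp only [id] at h5
          show k0 < M (ν + i + 1)
          omega
        nlinarith
      · have h1 : 0 < w.1.natAbs := Int.natAbs_pos.2 h0
        have h2 : w.1.natAbs < M (ν + i + 1) := by
          have : ((w.1.natAbs : ℕ) : ℤ) < (M (ν + i + 1) : ℤ) := by
            rw [Int.natCast_natAbs]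
            exact hw3
          exact_mod_cast this
        have h3 := rec_prop hinf (ν + i) h1 h2
        refine h3.trans ?_
        rcases lt_or_gt_of_ne h0 with h4 | h4
        · have h5 := dd_le (θ := θ) hN w.1.natAbs (fun i => -(w.2 i))
          have h6 : (fun i => ((w.1.natAbs : ℕ) : ℝ) * θ i - ((-(w.2 i) : ℤ) : ℝ)) =
              -(rem θ w) := by
            ext t
            have h7 : ((w.1.natAbs : ℕ) : ℝ) = -(w.1 : ℝ) := by
              have h8 : ((w.1.natAbs : ℕ) : ℤ) = -w.1 := by omega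
              have h9 := congrArg (fun t : ℤ => (t : ℝ)) h8
              simp only [Int.cast_natCast, Int.cast_neg] at h9
              exact h9
            simp only [rem, Pi.neg_apply]
            rw [h7]
            push_cast
            ring
          rw [h6, hN.neg] at h5
          exact h5
        · have h5 := dd_le (θ := θ) hN w.1.natAbs (fun i => w.2 i)
          have h6 : (fun i => ((w.1.natAbs : ℕ) : ℝ) * θ i - ((w.2 i : ℤ) : ℝ)) =
              rem θ w := by
            ext t
            have h7 : ((w.1.natAbs : ℕ) : ℝ) = (w.1 : ℝ) := by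
              have h8 : ((w.1.natAbs : ℕ) : ℤ) = w.1 := by omega
              have h9 := congrArg (fun t : ℤ => (t : ℝ)) h8
              simp only [Int.cast_natCast] at h9
              exact h9
            simp only [rem]
            rw [h7]
          rw [h6] at h5
          exact h5
  have h := hwin.main2 hN
  have h' : 2 * (M (ν + 1) : ℤ) + (M (ν + 0) : ℤ) ≤ (M (ν + 6) : ℤ) := h
  rw [add_zero] at h'
  exact_mod_cast h'

theorem growth2 {M : ℕ → ℝ} (hpos : ∀ n, 0 < M n) (hmono : Monotone M)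
    (h : ∀ᶠ n in atTop, 2 * M (n + 1) + M n ≤ M (n + 6)) {c : ℝ} (hc : 0 < c)
    (hc2 : c ^ 6 < 2 * c + 1) : ∀ᶠ n in atTop, c ^ n < M n := by
  obtain ⟨n0, hn0⟩ := eventually_atTop.1 h
  have hd : ∃ d : ℝ, c < d ∧ 1 < d ∧ d ^ 6 ≤ 2 * d + 1 := by
    rcases lt_or_ge c 1.2 with h1 | h1
    · exact ⟨1.2, h1, by norm_num, by norm_num⟩
    · have hcont : ContinuousAt (fun x : ℝ => 2 * x + 1 - x ^ 6) c := by fun_prop
      have h2 : ∀ᶠ x in 𝓝 c, 0 < 2 * x + 1 - x ^ 6 :=
        hcont.eventually_const_lt (by linarith)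
      have h3 : ∀ᶠ x in 𝓝[>] c, 0 < 2 * x + 1 - x ^ 6 := h2.filter_mono nhdsWithin_le_nhds
      obtain ⟨d, hd1, hd2⟩ := (h3.and self_mem_nhdsWithin).exists
      have hd3 : c < d := hd2
      exact ⟨d, hd3, by linarith, by linarith⟩
  obtain ⟨d, hcd, hd1, hd2⟩ := hd
  have hd0 : 0 < d := by linarith
  set κ : ℝ := M n0 / d ^ (n0 + 6) with hκ
  have hκ0 : 0 < κ := div_pos (hpos _) (pow_pos hd0 _)
  have key : ∀ n, n0 ≤ n → κ * d ^ n ≤ M n := by
    intro n
    induction n using Nat.strong_induction_on with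
    | _ n ih =>
      intro hn
      rcases Nat.lt_or_ge n (n0 + 6) with h1 | h1
      · calc κ * d ^ n ≤ κ * d ^ (n0 + 6) :=
            mul_le_mul_of_nonneg_left (pow_le_pow_right₀ hd1.le (by omega)) hκ0.le
          _ = M n0 := by rw [hκ]; field_simp
          _ ≤ M n := hmono hn
      · obtain ⟨m, rfl⟩ : ∃ m, n = m + 6 := ⟨n - 6, by omega⟩
        have h2 := ih m (by omega) (by omega)
        have h3 := ih (m + 1) (by omega) (by omega)
        have h4 := hn0 m (by omega)
        have h5 : 0 < κ * d ^ m := mul_pos hκ0 (pow_pos hd0 _)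
        have h6 : κ * d ^ (m + 6) = (κ * d ^ m) * d ^ 6 := by ring
        have h7 : κ * d ^ (m + 1) = (κ * d ^ m) * d := by ring
        have h8 : (κ * d ^ m) * (d ^ 6) ≤ (κ * d ^ m) * (2 * d + 1) :=
          mul_le_mul_of_nonneg_left hd2 h5.le
        rw [h7] at h3
        rw [h6]
        nlinarith
  have hr : Tendsto (fun n : ℕ => (c / d) ^ n) atTop (𝓝 0) :=
    tendsto_pow_atTop_nhds_zero_of_lt_one (div_nonneg hc.le hd0.le) ((div_lt_one hd0).2 hcd)
  have h9 : ∀ᶠ n : ℕ in atTop, (c / d) ^ n < κ := hr.eventually_lt_const hκ0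
  filter_upwards [h9, eventually_ge_atTop n0] with n h10 h11
  refine lt_of_lt_of_le ?_ (key n h11)
  rw [div_pow, div_lt_iff₀ (pow_pos hd0 n)] at h10
  exact h10

end Pool.Agent.N269.LG
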