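import Pool.Agent.N269.LG.Plane

set_option autoImplicit false

/-!
# Seven consecutive best approximations
-/

open Filter Topology

namespace Pool.Agent.N269.LG

abbrev V := ℤ × (Fin 2 → ℤ)

/-- the remainder `x θ - y` of the integer point `(x, y)` -/
def rem (θ : Fin 2 → ℝ) (w : V) : Fin 2 → ℝ := fun i => (w.1 : ℝ) * θ i - (w.2 i : ℝ)

theorem rem_add (θ : Fin 2 → ℝ) (v w : V) : rem θ (v + w) = rem θ v + rem θ w := by
  ext i
  simp [rem]
  ring

theorem rem_neg (θ : Fin 2 → ℝ) (v : V) : rem θ (-v) = -rem θ v := by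
  ext i
  simp [rem]
  ring

theorem rem_sub (θ : Fin 2 → ℝ) (v w : V) : rem θ (v - w) = rem θ v - rem θ w := by
  rw [sub_eq_add_neg, rem_add, rem_neg, ← sub_eq_add_neg]

variable {N : (Fin 2 → ℝ) → ℝ} {θ : Fin 2 → ℝ} {z : ℕ → V}

theorem IsNm.dbl (hN : IsNm N) (x : Fin 2 → ℝ) : N (x + x) = 2 * N x := by
  have := hN.s 2 x
  rw [two_smul] at this
  simpa using this

/-- seven consecutive best approximations -/
structure Win (N : (Fin 2 → ℝ) → ℝ) (θ : Fin 2 → ℝ) (z : ℕ → V) : Prop where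
  pos : 0 < (z 0).1
  mono : ∀ i < 6, (z i).1 < (z (i + 1)).1
  dec : ∀ i < 6, N (rem θ (z (i + 1))) < N (rem θ (z i))
  rpos : ∀ i ≤ 6, 0 < N (rem θ (z i))
  P : ∀ i < 6, ∀ w : V, w ≠ 0 → |w.1| < (z (i + 1)).1 → N (rem θ (z i)) ≤ N (rem θ w)

theorem Win.lt (h : Win N θ z) : ∀ j ≤ 6, ∀ i < j, (z i).1 < (z j).1 := by
  intro j
  induction j with
  | zero => intro _ i hi; omega
  | succ j ih =>
    intro hj i hi
    have h1 := h.mono j (by omega)
    rcases Nat.lt_succ_iff_lt_or_eq.1 hi with h2 | h2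
    · exact (ih (by omega) i h2).trans h1
    · rw [h2]; exact h1

theorem Win.gt (h : Win N θ z) : ∀ j ≤ 6, ∀ i < j, N (rem θ (z j)) < N (rem θ (z i)) := by
  intro j
  induction j with
  | zero => intro _ i hi; omega
  | succ j ih =>
    intro hj i hi
    have h1 := h.dec j (by omega)
    rcases Nat.lt_succ_iff_lt_or_eq.1 hi with h2 | h2
    · exact h1.trans (ih (by omega) i h2)
    · rw [h2]; exact h1

theorem Win.mpos (h : Win N θ z) (i : ℕ) (hi : i ≤ 6) : 0 < (z i).1 := by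
  rcases Nat.eq_zero_or_pos i with h1 | h1
  · rw [h1]; exact h.pos
  · exact h.pos.trans (h.lt i hi 0 h1)

theorem Win.par (hN : IsNm N) (h : Win N θ z) {i j : ℕ} (hij : i < j) (hj : j ≤ 6) {w : V}
    (hw : z j - z i = w + w) : 2 * (z (i + 1)).1 + (z i).1 ≤ (z j).1 := by
  by_contra hc
  push Not at hc
  have h1 := h.lt j hj i hij
  have h2 : (z j).1 - (z i).1 = w.1 + w.1 := by
    have := congrArg Prod.fst hw
    simpa using this
  have h3 : w ≠ 0 := by
    intro e
    rw [e] at h2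
    simp at h2
    omega
  have h4 : |w.1| < (z (i + 1)).1 := by
    rw [abs_lt]
    have := h.mpos (i + 1) (by omega)
    constructor <;> omega
  have h5 := h.P i (by omega) w h3 h4
  have h6 : N (rem θ (z j) - rem θ (z i)) = 2 * N (rem θ w) := by
    rw [← rem_sub, hw, rem_add, hN.dbl]
  have h7 : N (rem θ (z j) - rem θ (z i)) ≤ N (rem θ (z j)) + N (rem θ (z i)) := by
    have := hN.t (rem θ (z j)) (-rem θ (z i))
    rwa [hN.neg, ← sub_eq_add_neg] at this
  have h8 := h.gt j hj i hij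
  linarith

theorem Win.prim (hN : IsNm N) (h : Win N θ z) {i : ℕ} (hi : i ≤ 6) {w : V}
    (hw : z i = w + w) : False := by
  have h2 : (z i).1 = w.1 + w.1 := by
    have := congrArg Prod.fst hw
    simpa using this
  have hp := h.mpos i hi
  have h3 : w ≠ 0 := by
    intro e
    rw [e] at h2
    simp at h2
    omega
  have h6 : N (rem θ (z i)) = 2 * N (rem θ w) := by
    rw [hw, rem_add, hN.dbl]
  have hr := h.rpos i hi
  rcases Nat.eq_zero_or_pos i with h0 | h0
  · subst h0
    have h1 := h.mono 0 (by omega)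
    have h4 : |w.1| < (z (0 + 1)).1 := by
      rw [abs_lt]
      constructor <;> omega
    have h5 := h.P 0 (by omega) w h3 h4
    linarith
  · obtain ⟨k, rfl⟩ : ∃ k, i = k + 1 := ⟨i - 1, by omega⟩
    have h4 : |w.1| < (z (k + 1)).1 := by
      rw [abs_lt]
      constructor <;> omega
    have h5 := h.P k (by omega) w h3 h4
    have h7 := h.gt (k + 1) hi k (by omega)
    linarith

theorem Win.line (hN : IsNm N) (h : Win N θ z) {i j k : ℕ} (hij : i < j) (hjk : j < k)
    (hk : k ≤ 6) {w : V} (hw : z i + z j + z k = w + w) :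
    2 * (z (i + 1)).1 + (z i).1 ≤ (z j).1 + (z k).1 := by
  by_contra hc
  push Not at hc
  have a1 := h.lt j (by omega) i hij
  have a2 := h.lt k hk j hjk
  have a3 := h.mpos i (by omega)
  have a4 : (z (i + 1)).1 ≤ (z j).1 := by
    rcases Nat.lt_or_ge (i + 1) j with h1 | h1
    · exact (h.lt j (by omega) (i + 1) h1).le
    · have : j = i + 1 := by omega
      rw [this]
  have h2 : (z i).1 + (z j).1 + (z k).1 = w.1 + w.1 := by
    have := congrArg Prod.fst hw
    simpa using this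
  have ep : (w - z k) + (w - z j) = z i := by
    have : (w - z k) + (w - z j) = (w + w) - z j - z k := by abel
    rw [this, ← hw]; abel
  have eq1 : (w - z k) + (w - z i) = z j := by
    have : (w - z k) + (w - z i) = (w + w) - z i - z k := by abel
    rw [this, ← hw]; abel
  have es : (w - z j) + (w - z i) = z k := by
    have : (w - z j) + (w - z i) = (w + w) - z i - z j := by abel
    rw [this, ← hw]; abel
  have key : ∀ u : V, u.1 ≠ 0 → |u.1| < (z (i + 1)).1 →
      N (rem θ (z i)) ≤ N (rem θ u) := by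
    intro u hu1 hu2
    exact h.P i (by omega) u (fun e => hu1 (by rw [e]; rfl)) hu2
  have b1 : N (rem θ (z i)) ≤ N (rem θ (w - z j)) := by
    apply key
    · simp only [Prod.fst_sub]; omega
    · simp only [Prod.fst_sub]; rw [abs_lt]; constructor <;> omega
  have b2 : N (rem θ (z i)) ≤ N (rem θ (w - z i)) := by
    apply key
    · simp only [Prod.fst_sub]; omega
    · simp only [Prod.fst_sub]; rw [abs_lt]; constructor <;> omega
  have b3 : N (rem θ (z i)) ≤ N (rem θ (w - z k)) := by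
    apply key
    · simp only [Prod.fst_sub]; intro e; omega
    · simp only [Prod.fst_sub]; rw [abs_lt]; constructor <;> omega
  have c1 := h.gt j (by omega) i hij
  have c2 := h.gt k hk i (by omega)
  have d1 : N (rem θ (w - z k) + rem θ (w - z j)) = N (rem θ (z i)) := by
    rw [← rem_add, ep]
  have d2 : N (rem θ (w - z k) + rem θ (w - z i)) < N (rem θ (z i)) := by
    rw [← rem_add, eq1]; exact c1
  have d3 : N (rem θ (w - z j) + rem θ (w - z i)) < N (rem θ (z i)) := by
    rw [← rem_add, es]; exact c2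
  exact three hN (h.rpos i (by omega)) (p := rem θ (w - z k)) (q := rem θ (w - z j))
    (s := rem θ (w - z i)) ⟨b3, b1, b2, d1.le, d2.le, d3.le, Or.inr d2, Or.inr d3, Or.inl d2⟩

/-- the class modulo 2 -/
def cl (v : V) : Fin 8 :=
  ⟨(v.1 % 2).toNat + 2 * ((v.2 0) % 2).toNat + 4 * ((v.2 1) % 2).toNat, by omega⟩

theorem half {v : V} (h0 : v.1 % 2 = 0) (h1 : v.2 0 % 2 = 0) (h2 : v.2 1 % 2 = 0) :
    ∃ w : V, v = w + w := by
  refine ⟨(v.1 / 2, fun i => v.2 i / 2), ?_⟩
  apply Prod.ext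
  · simp only [Prod.fst_add]; omega
  · ext i
    simp only [Prod.snd_add, Pi.add_apply]
    fin_cases i
    · simp only [Fin.zero_eta]; omega
    · simp only [Fin.mk_one]; omega

theorem bits : ∀ a b c : Fin 8, (a.val ^^^ b.val ^^^ c.val = 0) →
    ((a.val % 2 + b.val % 2 + c.val % 2) % 2 = 0 ∧
     (a.val / 2 % 2 + b.val / 2 % 2 + c.val / 2 % 2) % 2 = 0 ∧
     (a.val / 4 + b.val / 4 + c.val / 4) % 2 = 0) := by decide +kernel

theorem cl_zero {v : V} (h : (cl v).val = 0) : ∃ w : V, v = w + w := by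
  unfold cl at h
  simp only at h
  apply half <;> omega

theorem cl_eq {u v : V} (h : cl u = cl v) : ∃ w : V, u - v = w + w := by
  have h' := congrArg Fin.val h
  unfold cl at h'
  simp only at h'
  apply half
  · simp only [Prod.fst_sub]; omega
  · simp only [Prod.snd_sub, Pi.sub_apply]; omega
  · simp only [Prod.snd_sub, Pi.sub_apply]; omega

theorem cl_bits (v : V) : (cl v).val % 2 = (v.1 % 2).toNat ∧
    (cl v).val / 2 % 2 = ((v.2 0) % 2).toNat ∧ (cl v).val / 4 = ((v.2 1) % 2).toNat := by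
  unfold cl
  simp only
  refine ⟨?_, ?_, ?_⟩ <;> omega

theorem cl_line {a b c : V} (h : (cl a).val ^^^ (cl b).val ^^^ (cl c).val = 0) :
    ∃ w : V, a + b + c = w + w := by
  obtain ⟨h1, h2, h3⟩ := bits _ _ _ h
  rw [(cl_bits a).1, (cl_bits b).1, (cl_bits c).1] at h1
  rw [(cl_bits a).2.1, (cl_bits b).2.1, (cl_bits c).2.1] at h2
  rw [(cl_bits a).2.2, (cl_bits b).2.2, (cl_bits c).2.2] at h3
  apply half
  · simp only [Prod.fst_add]; clear h2 h3 h; omega
  · simp only [Prod.snd_add, Pi.add_apply]; clear h1 h3 h; omega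
  · simp only [Prod.snd_add, Pi.add_apply]; clear h1 h2 h; omega

/-- a class not seen before -/
def gd (l : List (Fin 8)) (c : Fin 8) : Bool := (c.val != 0) && l.all (fun d => d.val != c.val)

/-- the certificates -/
def ok (c0 c1 c2 c3 c4 c5 c6 : Fin 8) : Bool :=
    ((((c0.val ^^^ c1.val ^^^ c4.val) == 0) && ((c3.val ^^^ c4.val ^^^ c6.val) == 0)) ||
     (((c1.val ^^^ c2.val ^^^ c5.val) == 0) && ((c4.val ^^^ c5.val ^^^ c6.val) == 0)) ||
     (((c0.val ^^^ c1.val ^^^ c3.val) == 0) && ((c2.val ^^^ c3.val ^^^ c6.val) == 0)) ||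
     (((c1.val ^^^ c3.val ^^^ c5.val) == 0) && ((c4.val ^^^ c5.val ^^^ c6.val) == 0)) ||
     (((c1.val ^^^ c2.val ^^^ c3.val) == 0) && ((c3.val ^^^ c5.val ^^^ c6.val) == 0)) ||
     (((c0.val ^^^ c1.val ^^^ c2.val) == 0) && ((c2.val ^^^ c3.val ^^^ c5.val) == 0)) ||
     (((c1.val ^^^ c2.val ^^^ c3.val) == 0) && ((c3.val ^^^ c4.val ^^^ c5.val) == 0)) ||
     (((c0.val ^^^ c2.val ^^^ c3.val) == 0) && ((c3.val ^^^ c4.val ^^^ c5.val) == 0)) ||
     (((c0.val ^^^ c1.val ^^^ c3.val) == 0) && ((c3.val ^^^ c4.val ^^^ c6.val) == 0)) ||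
     (((c0.val ^^^ c1.val ^^^ c5.val) == 0) && ((c4.val ^^^ c5.val ^^^ c6.val) == 0)) ||
     (((c0.val ^^^ c1.val ^^^ c3.val) == 0) && ((c2.val ^^^ c3.val ^^^ c4.val) == 0)) ||
     (((c0.val ^^^ c1.val ^^^ c2.val) == 0) && ((c2.val ^^^ c3.val ^^^ c6.val) == 0)) ||
     (((c0.val ^^^ c1.val ^^^ c2.val) == 0) && ((c2.val ^^^ c3.val ^^^ c4.val) == 0)) ||
     (((c0.val ^^^ c2.val ^^^ c3.val) == 0) && ((c3.val ^^^ c4.val ^^^ c6.val) == 0)) ||
     (((c1.val ^^^ c2.val ^^^ c3.val) == 0) && ((c3.val ^^^ c4.val ^^^ c6.val) == 0)) ||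
     (((c0.val ^^^ c2.val ^^^ c3.val) == 0) && ((c1.val ^^^ c3.val ^^^ c4.val) == 0) && ((c2.val ^^^ c4.val ^^^ c6.val) == 0) && ((c3.val ^^^ c5.val ^^^ c6.val) == 0)) ||
     (((c0.val ^^^ c2.val ^^^ c3.val) == 0) && ((c1.val ^^^ c3.val ^^^ c4.val) == 0) && ((c2.val ^^^ c4.val ^^^ c5.val) == 0) && ((c3.val ^^^ c5.val ^^^ c6.val) == 0)))

/-- the check -/
def chk : Bool :=
  (List.finRange 8).all fun c0 => !gd [] c0 ||
  (List.finRange 8).all fun c1 => !gd [c0] c1 ||
  (List.finRange 8).all fun c2 => !gd [c0, c1] c2 ||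
  (List.finRange 8).all fun c3 => !gd [c0, c1, c2] c3 ||
  (List.finRange 8).all fun c4 => !gd [c0, c1, c2, c3] c4 ||
  (List.finRange 8).all fun c5 => !gd [c0, c1, c2, c3, c4] c5 ||
  (List.finRange 8).all fun c6 => !gd [c0, c1, c2, c3, c4, c5] c6 ||
    ok c0 c1 c2 c3 c4 c5 c6

theorem chk_true : chk = true := by decide +kernel

theorem comb :
    ∀ c0 : Fin 8, gd [] c0 = true →
    ∀ c1 : Fin 8, gd [c0] c1 = true →
    ∀ c2 : Fin 8, gd [c0, c1] c2 = true →
    ∀ c3 : Fin 8, gd [c0, c1, c2] c3 = true →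
    ∀ c4 : Fin 8, gd [c0, c1, c2, c3] c4 = true →
    ∀ c5 : Fin 8, gd [c0, c1, c2, c3, c4] c5 = true →
    ∀ c6 : Fin 8, gd [c0, c1, c2, c3, c4, c5] c6 = true →
    ok c0 c1 c2 c3 c4 c5 c6 = true := by
  have h := chk_true
  unfold chk at h
  intro c0 h0 c1 h1 c2 h2 c3 h3 c4 h4 c5 h5 c6 h6
  replace h := List.all_eq_true.1 h c0 (List.mem_finRange _)
  rw [h0, Bool.not_true, Bool.false_or] at h
  replace h := List.all_eq_true.1 h c1 (List.mem_finRange _)
  rw [h1, Bool.not_true, Bool.false_or] at h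
  replace h := List.all_eq_true.1 h c2 (List.mem_finRange _)
  rw [h2, Bool.not_true, Bool.false_or] at h
  replace h := List.all_eq_true.1 h c3 (List.mem_finRange _)
  rw [h3, Bool.not_true, Bool.false_or] at h
  replace h := List.all_eq_true.1 h c4 (List.mem_finRange _)
  rw [h4, Bool.not_true, Bool.false_or] at h
  replace h := List.all_eq_true.1 h c5 (List.mem_finRange _)
  rw [h5, Bool.not_true, Bool.false_or] at h
  replace h := List.all_eq_true.1 h c6 (List.mem_finRange _)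
  rw [h6, Bool.not_true, Bool.false_or] at h
  exact h


theorem Win.main (hN : IsNm N) (h : Win N θ z) :
    6 * (z 1).1 + 2 * (z 0).1 ≤ 3 * (z 6).1 := by
  by_contra hc
  push Not at hc
  have m0 := h.pos
  have m1 := h.mono 0 (by omega)
  have m2 := h.mono 1 (by omega)
  have m3 := h.mono 2 (by omega)
  have m4 := h.mono 3 (by omega)
  have m5 := h.mono 4 (by omega)
  have m6 := h.mono 5 (by omega)
  norm_num at m1 m2 m3 m4 m5 m6
  have hd : ∀ j ≤ 6, ∀ i < j, cl (z j) ≠ cl (z i) := by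
    intro j hj i hij e
    obtain ⟨w, hw⟩ := cl_eq e
    have h1 := h.par hN hij hj hw
    have h2 : (z j).1 ≤ (z 6).1 := by
      rcases Nat.lt_or_ge j 6 with h3 | h3
      · exact (h.lt 6 le_rfl j h3).le
      · have : j = 6 := by omega
        rw [this]
    have h3 : (z 0).1 ≤ (z i).1 := by
      rcases Nat.eq_zero_or_pos i with h4 | h4
      · rw [h4]
      · exact (h.lt i (by omega) 0 h4).le
    have h4 : (z 1).1 ≤ (z (i + 1)).1 := by
      rcases Nat.eq_zero_or_pos i with h4 | h4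
      · rw [h4]
      · exact (h.lt (i + 1) (by omega) 1 (by omega)).le
    omega
  have hz : ∀ j ≤ 6, (cl (z j)).val ≠ 0 := by
    intro j hj e
    obtain ⟨w, hw⟩ := cl_zero e
    exact h.prim hN hj hw
  have hl : ∀ i j k : ℕ, i < j → j < k → k ≤ 6 →
      (cl (z i)).val ^^^ (cl (z j)).val ^^^ (cl (z k)).val = 0 →
      2 * (z (i + 1)).1 + (z i).1 ≤ (z j).1 + (z k).1 := by
    intro i j k hij hjk hk e
    obtain ⟨w, hw⟩ := cl_line e
    exact h.line hN hij hjk hk hw
  have hg : ∀ (l : List ℕ) (j : ℕ), j ≤ 6 → (∀ i ∈ l, i < j) →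
      gd (l.map (fun i => cl (z i))) (cl (z j)) = true := by
    intro l j hj hlj
    unfold gd
    rw [Bool.and_eq_true]
    constructor
    · simpa using hz j hj
    · rw [List.all_eq_true]
      intro d hd'
      obtain ⟨i, hi, rfl⟩ := List.mem_map.1 hd'
      have h1 := hd j hj i (hlj i hi)
      simp only [bne_iff_ne, ne_eq]
      intro e
      exact h1 (Fin.ext e.symm)
  have hk := comb (cl (z 0)) (hg [] 0 (by omega) (by simp)) (cl (z 1)) (hg [0] 1 (by omega) (by simp)) (cl (z 2)) (hg [0, 1] 2 (by omega) (by simp)) (cl (z 3)) (hg [0, 1, 2] 3 (by omega) (by simp)) (cl (z 4)) (hg [0, 1, 2, 3] 4 (by omega) (by simp)) (cl (z 5)) (hg [0, 1, 2, 3, 4] 5 (by omega) (by simp)) (cl (z 6)) (hg [0, 1, 2, 3, 4, 5] 6 (by omega) (by simp))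
  simp only [ok, Bool.or_eq_true, Bool.and_eq_true, beq_iff_eq, or_assoc] at hk
  rcases hk with ⟨e1, e2⟩ | ⟨e1, e2⟩ | ⟨e1, e2⟩ | ⟨e1, e2⟩ | ⟨e1, e2⟩ | ⟨e1, e2⟩ | ⟨e1, e2⟩ | ⟨e1, e2⟩ | ⟨e1, e2⟩ | ⟨e1, e2⟩ | ⟨e1, e2⟩ | ⟨e1, e2⟩ | ⟨e1, e2⟩ | ⟨e1, e2⟩ | ⟨e1, e2⟩ | ⟨⟨⟨e1, e2⟩, e3⟩, e4⟩ | ⟨⟨⟨e1, e2⟩, e3⟩, e4⟩
  · have f1 := hl 0 1 4 (by omega) (by omega) (by omega) e1
    have f2 := hl 3 4 6 (by omega) (by omega) (by omega) e2
    norm_num at f1 f2
    omega
  · have f1 := hl 1 2 5 (by omega) (by omega) (by omega) e1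
    have f2 := hl 4 5 6 (by omega) (by omega) (by omega) e2
    norm_num at f1 f2
    omega
  · have f1 := hl 0 1 3 (by omega) (by omega) (by omega) e1
    have f2 := hl 2 3 6 (by omega) (by omega) (by omega) e2
    norm_num at f1 f2
    omega
  · have f1 := hl 1 3 5 (by omega) (by omega) (by omega) e1
    have f2 := hl 4 5 6 (by omega) (by omega) (by omega) e2
    norm_num at f1 f2
    omega
  · have f1 := hl 1 2 3 (by omega) (by omega) (by omega) e1
    have f2 := hl 3 5 6 (by omega) (by omega) (by omega) e2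
    norm_num at f1 f2
    omega
  · have f1 := hl 0 1 2 (by omega) (by omega) (by omega) e1
    have f2 := hl 2 3 5 (by omega) (by omega) (by omega) e2
    norm_num at f1 f2
    omega
  · have f1 := hl 1 2 3 (by omega) (by omega) (by omega) e1
    have f2 := hl 3 4 5 (by omega) (by omega) (by omega) e2
    norm_num at f1 f2
    omega
  · have f1 := hl 0 2 3 (by omega) (by omega) (by omega) e1
    have f2 := hl 3 4 5 (by omega) (by omega) (by omega) e2
    norm_num at f1 f2
    omega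
  · have f1 := hl 0 1 3 (by omega) (by omega) (by omega) e1
    have f2 := hl 3 4 6 (by omega) (by omega) (by omega) e2
    norm_num at f1 f2
    omega
  · have f1 := hl 0 1 5 (by omega) (by omega) (by omega) e1
    have f2 := hl 4 5 6 (by omega) (by omega) (by omega) e2
    norm_num at f1 f2
    omega
  · have f1 := hl 0 1 3 (by omega) (by omega) (by omega) e1
    have f2 := hl 2 3 4 (by omega) (by omega) (by omega) e2
    norm_num at f1 f2
    omega
  · have f1 := hl 0 1 2 (by omega) (by omega) (by omega) e1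
    have f2 := hl 2 3 6 (by omega) (by omega) (by omega) e2
    norm_num at f1 f2
    omega
  · have f1 := hl 0 1 2 (by omega) (by omega) (by omega) e1
    have f2 := hl 2 3 4 (by omega) (by omega) (by omega) e2
    norm_num at f1 f2
    omega
  · have f1 := hl 0 2 3 (by omega) (by omega) (by omega) e1
    have f2 := hl 3 4 6 (by omega) (by omega) (by omega) e2
    norm_num at f1 f2
    omega
  · have f1 := hl 1 2 3 (by omega) (by omega) (by omega) e1
    have f2 := hl 3 4 6 (by omega) (by omega) (by omega) e2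
    norm_num at f1 f2
    omega
  · have f1 := hl 0 2 3 (by omega) (by omega) (by omega) e1
    have f2 := hl 1 3 4 (by omega) (by omega) (by omega) e2
    have f3 := hl 2 4 6 (by omega) (by omega) (by omega) e3
    have f4 := hl 3 5 6 (by omega) (by omega) (by omega) e4
    norm_num at f1 f2 f3 f4
    omega
  · have f1 := hl 0 2 3 (by omega) (by omega) (by omega) e1
    have f2 := hl 1 3 4 (by omega) (by omega) (by omega) e2
    have f3 := hl 2 4 5 (by omega) (by omega) (by omega) e3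
    have f4 := hl 3 5 6 (by omega) (by omega) (by omega) e4
    norm_num at f1 f2 f3 f4
    omega

end Pool.Agent.N269.LG
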